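import Pool.Agent.Lib.MP_f9eb18_lc.Defs

/-! Solovay's almost disjoint coding under `MA1`; clubs in `ω₁`. -/

namespace Pool.Agent.Lib.MP_f9eb18_lc

open Ordinal Cardinal

/-- conditions of the almost disjoint coding forcing -/
@[ext] structure Cond (I Ω : Type) (X : Set I) : Type where
  s : Finset (ℕ × Ω)
  F : Finset I
  hF : ∀ i ∈ F, i ∉ X

/-- the order of the almost disjoint coding forcing -/
@[reducible] def condOrder {I Ω : Type} (X : Set I) (d : I → ℕ → Ω) :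
    PartialOrder (Cond I Ω X) where
  le p q := q.s ⊆ p.s ∧ q.F ⊆ p.F ∧ ∀ i ∈ q.F, ∀ n, (n, d i n) ∈ p.s → (n, d i n) ∈ q.s
  le_refl _ := ⟨subset_rfl, subset_rfl, fun _ _ _ h => h⟩
  le_trans _ _ _ h h' := ⟨h'.1.trans h.1, h'.2.1.trans h.2.1,
    fun i hi n hn => h'.2.2 i hi n (h.2.2 i (h'.2.1 hi) n hn)⟩
  le_antisymm _ _ h h' := Cond.ext (Finset.Subset.antisymm h'.1 h.1)
    (Finset.Subset.antisymm h'.2.1 h.2.1)

theorem solovay (hMA : MA1) {I Ω : Type} [Countable Ω] (e : O → I × ℕ) (he : Function.Surjective e)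
    (d : I → ℕ → Ω) (hd : ∀ i j, i ≠ j → ∃ N, ∀ n ≥ N, d i n ≠ d j n) (X : Set I) :
    ∃ Z : Set (ℕ × Ω), ∀ i, i ∈ X ↔ ∀ m, ∃ n, m < n ∧ (n, d i n) ∈ Z := by
  classical
  let _ := condOrder X d
  have : Nonempty (Cond I Ω X) := ⟨⟨∅, ∅, fun _ h => absurd h (Finset.notMem_empty _)⟩⟩
  let D : I × ℕ → Set (Cond I Ω X) := fun q =>
    {p | (q.1 ∉ X → q.1 ∈ p.F) ∧ (q.1 ∈ X → ∃ n, q.2 < n ∧ (n, d q.1 n) ∈ p.s)}
  obtain ⟨G, hG1, -, hG3⟩ := hMA (Cond I Ω X) (fun A hA => by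
    refine Set.countable_of_injective_of_countable_image (f := fun p => p.s) ?_
      (Set.to_countable _)
    intro p hp q hq hpq
    by_contra hne
    refine hA hp hq hne ⟨⟨p.s, p.F ∪ q.F, fun i hi => ?_⟩, ⟨subset_rfl, Finset.subset_union_left,
      fun _ _ _ h => h⟩, ⟨?_, Finset.subset_union_right, fun _ _ _ h => ?_⟩⟩
    · rcases Finset.mem_union.1 hi with h | h
      · exact p.hF i h
      · exact q.hF i h
    · exact (show p.s = q.s from hpq).ge
    · exact (show p.s = q.s from hpq) ▸ h) (fun a => D (e a)) (fun a p => by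
    obtain ⟨i, m⟩ := e a
    by_cases hi : i ∈ X
    · have : ∀ j : I, ∃ N, j ∈ p.F → ∀ n ≥ N, d i n ≠ d j n := fun j => by
        by_cases hj : j ∈ p.F
        · obtain ⟨N, hN⟩ := hd i j (by rintro rfl; exact p.hF i hj hi)
          exact ⟨N, fun _ => hN⟩
        · exact ⟨0, fun h => absurd h hj⟩
      choose N hN using this
      let n := max (m + 1) (p.F.sup N)
      refine ⟨⟨insert (n, d i n) p.s, p.F, p.hF⟩, ⟨fun h => absurd hi h, fun _ =>
        ⟨n, lt_of_lt_of_le (Nat.lt_succ_self m) (le_max_left _ _), Finset.mem_insert_self _ _⟩⟩,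
        Finset.subset_insert _ _, subset_rfl, fun j hj k hk => ?_⟩
      rcases Finset.mem_insert.1 hk with h | h
      · obtain ⟨rfl, h2⟩ := Prod.mk.inj h
        exact absurd h2.symm (hN j hj n ((Finset.le_sup (f := N) hj).trans (le_max_right _ _)))
      · exact h
    · refine ⟨⟨p.s, insert i p.F, fun j hj => ?_⟩, ⟨fun _ => Finset.mem_insert_self _ _,
        fun h => absurd h hi⟩, subset_rfl, Finset.subset_insert _ _, fun _ _ _ h => h⟩
      rcases Finset.mem_insert.1 hj with rfl | h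
      · exact hi
      · exact p.hF j h)
  refine ⟨{x | ∃ p ∈ G, x ∈ p.s}, fun i => ⟨fun hi m => ?_, fun h => ?_⟩⟩
  · obtain ⟨a, ha⟩ := he (i, m)
    obtain ⟨p, hp, hp'⟩ := hG3 a
    rw [ha] at hp'
    obtain ⟨n, h1, h2⟩ := hp'.2 hi
    exact ⟨n, h1, p, hp, h2⟩
  · by_contra hi
    obtain ⟨a, ha⟩ := he (i, 0)
    obtain ⟨p, hp, hp'⟩ := hG3 a
    rw [ha] at hp'
    have hiF : i ∈ p.F := hp'.1 hi
    obtain ⟨n, h1, q, hq, h2⟩ := h (p.s.sup Prod.fst)
    obtain ⟨r, -, hr1, hr2⟩ := hG1 p hp q hq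
    have := hr1.2.2 i hiF n (hr2.1 h2)
    exact absurd (Finset.le_sup (f := Prod.fst) this) (not_le.2 h1)

theorem mk_O : #O = ℵ₁ := by
  rw [Cardinal.mk_toType, Ordinal.card_omega]

theorem exists_surj_O : ∃ e : O → (O × O) × ℕ, Function.Surjective e := by
  have : #O = #((O × O) × ℕ) := by
    simp only [Cardinal.mk_prod, Cardinal.lift_id, mk_O, Cardinal.mk_nat]
    rw [Cardinal.mul_eq_self (Cardinal.aleph0_le_aleph 1),
      Cardinal.mul_eq_left (Cardinal.aleph0_le_aleph 1) (Cardinal.aleph0_le_aleph 1)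
        Cardinal.aleph0_ne_zero]
  obtain ⟨e⟩ := Cardinal.eq.1 this
  exact ⟨e, e.surjective⟩

theorem cof_O : Order.cof O = ℵ₁ := by
  rw [Ordinal.cof_toType, Cardinal.cof_omega_one]

theorem cof_O_ne : Order.cof O ≠ ℵ₀ := by
  rw [cof_O]; exact Cardinal.aleph0_lt_aleph_one.ne'

theorem countable_Iio (a : O) : (Set.Iio a).Countable := by
  rw [← Cardinal.le_aleph0_iff_set_countable, ← Cardinal.lt_aleph_one_iff, ← mk_O]
  exact Cardinal.mk_Iio_lt a (by rw [mk_O, Ordinal.type_toType, Cardinal.ord_aleph])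

theorem exists_gt_of_countable {s : Set O} (hs : s.Countable) : ∃ b, ∀ a ∈ s, a < b := by
  have : ¬ IsCofinal s := fun h => by
    have := Order.cof_le h
    rw [cof_O] at this
    exact absurd (this.trans (Cardinal.le_aleph0_iff_set_countable.2 hs))
      (not_le.2 Cardinal.aleph0_lt_aleph_one)
  exact not_isCofinal_iff.1 this

theorem isClub_Ioi (a : O) : IsClub (Set.Ioi a) := by
  refine ⟨fun s hs hne _ x hx => ?_, fun b => ?_⟩
  · obtain ⟨y, hy⟩ := hne
    exact lt_of_lt_of_le (hs hy) (hx.1 hy)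
  · obtain ⟨c, hc⟩ := exists_gt_of_countable (s := {a, b}) (Set.to_countable _)
    exact ⟨c, hc a (by simp), (hc b (by simp)).le⟩

theorem not_stat_of_subsingleton {s : Set O} (hs : s.Subsingleton) : ¬ IsStationary s := by
  intro h
  obtain ⟨a, ha⟩ := h.nonempty
  obtain ⟨b, hb, hb'⟩ := h (isClub_Ioi a)
  exact (ne_of_gt hb') (hs hb ha)

theorem isClub_closure (g : O → O) : IsClub {η : O | ∀ x < η, g x < η} := by
  refine ⟨fun s hs _ _ η hη x hx => ?_, fun a => ?_⟩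
  · obtain ⟨y, hy, hxy⟩ := (lt_isLUB_iff hη).1 hx
    exact lt_of_lt_of_le (hs hy x hxy) (hη.1 hy)
  · have : ∀ b : O, ∃ c, b < c ∧ ∀ x < b, g x < c := fun b => by
      obtain ⟨c, hc⟩ := exists_gt_of_countable (s := insert b (g '' Set.Iio b))
        (((countable_Iio b).image g).insert b)
      exact ⟨c, hc b (Set.mem_insert _ _), fun x hx => hc _ (Or.inr ⟨x, hx, rfl⟩)⟩
    choose G hG1 hG2 using this
    let f : ℕ → O := fun n => G^[n] a
    obtain ⟨b, hb⟩ := exists_gt_of_countable (Set.countable_range f)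
    have hne : (upperBounds (Set.range f)).Nonempty := ⟨b, fun x hx => (hb x hx).le⟩
    let η := wellFounded_lt.min _ hne
    have hη : IsLUB (Set.range f) η := ⟨wellFounded_lt.min_mem _ hne,
      fun y hy => not_lt.1 (wellFounded_lt.not_lt_min _ hy)⟩
    refine ⟨η, fun x hx => ?_, hη.1 ⟨0, rfl⟩⟩
    obtain ⟨y, ⟨n, rfl⟩, hxy⟩ := (lt_isLUB_iff hη).1 hx
    refine lt_of_lt_of_le (hG2 _ x hxy) (hη.1 ⟨n + 1, ?_⟩)
    simp only [f, Function.iterate_succ_apply']

theorem stat_congr {C s t : Set O} (hC : IsClub C) (h : ∀ x ∈ C, x ∈ s ↔ x ∈ t) :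
    IsStationary s ↔ IsStationary t := by
  have : ∀ {s t : Set O}, (∀ x ∈ C, x ∈ s → x ∈ t) → IsStationary s → IsStationary t :=
    fun h hs D hD => by
      obtain ⟨x, h1, h2, h3⟩ := hs (hC.inter cof_O_ne hD)
      exact ⟨x, h x h2 h1, h3⟩
  exact ⟨this fun x hx => (h x hx).1, this fun x hx => (h x hx).2⟩

/-- the ordinal represented by an element of `O` -/
noncomputable def ord (a : O) : Ordinal.{0} := (ToType.toOrd a).1

theorem ord_lt (a : O) : ord a < ω₁ := (ToType.toOrd a).2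

theorem ord_lt_ord {a b : O} : ord a < ord b ↔ a < b := by
  unfold ord
  rw [Subtype.coe_lt_coe]
  exact ToType.mk.symm.lt_iff_lt

theorem ord_inj {a b : O} : ord a = ord b ↔ a = b :=
  ⟨fun h => le_antisymm (not_lt.1 fun h' => (ord_lt_ord.2 h').ne' h)
    (not_lt.1 fun h' => (ord_lt_ord.2 h').ne h), fun h => h ▸ rfl⟩

theorem exists_ord {x : Ordinal.{0}} (hx : x < ω₁) : ∃ a, ord a = x :=
  ⟨ToType.mk ⟨x, hx⟩, by simp [ord]⟩

/-- the natural numbers inside `O` -/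
noncomputable def io (n : ℕ) : O :=
  ToType.mk ⟨n, (Ordinal.natCast_lt_omega0 n).trans Ordinal.omega0_lt_omega_one⟩

theorem ord_io (n : ℕ) : ord (io n) = n := by simp [ord, io]

theorem io_lt {m n : ℕ} : io m < io n ↔ m < n := by
  rw [← ord_lt_ord, ord_io, ord_io, Nat.cast_lt]

theorem io_inj {m n : ℕ} : io m = io n ↔ m = n := by
  rw [← ord_inj, ord_io, ord_io, Nat.cast_inj]

theorem lt_io {a : O} {n : ℕ} : a < io n ↔ ∃ m < n, a = io m := by
  constructor
  · intro h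
    rw [← ord_lt_ord, ord_io] at h
    obtain ⟨m, hm⟩ := Ordinal.lt_omega0.1 (h.trans (Ordinal.natCast_lt_omega0 n))
    refine ⟨m, by rwa [hm, Nat.cast_lt] at h, by rw [← ord_inj, ord_io, hm]⟩
  · rintro ⟨m, hm, rfl⟩; exact io_lt.2 hm

instance : Nonempty O := ⟨io 0⟩

end Pool.Agent.Lib.MP_f9eb18_lc
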