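import Pool.Agent.Lib.MP_f9eb18_lc.Defs
import Pool.Agent.Lib.MP_f9eb18_lc.Solovay

-- part Pool.Agent.Lib.MP_f9eb18_lc.Hier
section

/-! Basic facts on the hierarchy `J`. -/

namespace Pool.Agent.Lib.MP_f9eb18_lc

open Ordinal

@[simp] theorem cons_zero {α : Type*} (a : α) (v : ℕ → α) : cons a v 0 = a := rfl
@[simp] theorem cons_succ {α : Type*} (a : α) (v : ℕ → α) (n : ℕ) : cons a v (n + 1) = v n := rfl

theorem cons_all {α : Type*} {p : α → Prop} {a : α} {v : ℕ → α} (ha : p a) (hv : ∀ i, p (v i)) :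
    ∀ i, p (cons a v i)
  | 0 => ha
  | n + 1 => hv n

/-! ### rudimentary terms -/

def RT.bd : RT → ℕ
  | .var i => i + 1
  | .diff s t => max s.bd t.bd
  | .upair s t => max s.bd t.bd
  | .bunion s g => max s.bd g.bd
  | .inter s => s.bd

theorem mem_bunion {A : V} {s g : RT} {v : ℕ → V} {x : V} :
    x ∈ (RT.bunion s g).eval A v ↔ ∃ z ∈ s.eval A v, x ∈ g.eval A (cons z v) := by
  simp only [RT.eval, ZFSet.mem_iUnion]
  exact ⟨fun ⟨z, hz⟩ => ⟨z.1, z.2, hz⟩, fun ⟨z, hz, h⟩ => ⟨⟨z, hz⟩, h⟩⟩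

theorem RT.eval_congr (A : V) (t : RT) : ∀ {v w : ℕ → V}, (∀ i < t.bd, v i = w i) →
    t.eval A v = t.eval A w := by
  induction t with
  | var i => intro v w h; exact h i (Nat.lt_succ_self i)
  | diff s t hs ht =>
    intro v w h
    simp only [RT.eval]
    rw [hs (fun i hi => h i (lt_max_of_lt_left hi)), ht (fun i hi => h i (lt_max_of_lt_right hi))]
  | upair s t hs ht =>
    intro v w h
    simp only [RT.eval]
    rw [hs (fun i hi => h i (lt_max_of_lt_left hi)), ht (fun i hi => h i (lt_max_of_lt_right hi))]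
  | bunion s g hs hg =>
    intro v w h
    ext x
    rw [mem_bunion, mem_bunion, hs (fun i hi => h i (lt_max_of_lt_left hi))]
    have : ∀ z, g.eval A (cons z v) = g.eval A (cons z w) := fun z => hg (fun i hi => by
      cases i with
      | zero => rfl
      | succ i => exact h i (lt_max_of_lt_right (Nat.lt_of_succ_lt hi)))
    simp only [this]
  | inter s hs =>
    intro v w h
    simp only [RT.eval]
    rw [hs h]

theorem env_ofFn {X : V} (v : ℕ → V) (hv : ∀ i, v i ∈ X) (m : ℕ) {i : ℕ} (hi : i < m) :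
    env ((List.ofFn fun k : Fin m => (⟨v k, hv k⟩ : X)).map Subtype.val) i = v i := by
  unfold env
  rw [List.getD_eq_getElem _ _ (by simpa using hi)]
  simp

theorem eval_mem_rudStep {A X : V} (t : RT) {v : ℕ → V} (hv : ∀ i, v i ∈ X) :
    t.eval A v ∈ rudStep A X := by
  unfold rudStep
  rw [ZFSet.mem_range]
  exact ⟨(t, List.ofFn fun k : Fin t.bd => ⟨v k, hv k⟩),
    RT.eval_congr A t fun i hi => env_ofFn v hv _ hi⟩

theorem mem_rudStep_of_mem {A X x : V} (hx : x ∈ X) : x ∈ rudStep A X :=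
  eval_mem_rudStep (.var 0) (v := fun _ => x) fun _ => hx

theorem empty_mem_rudStep (A X : V) : (∅ : V) ∈ rudStep A X := by
  unfold rudStep
  rw [ZFSet.mem_range]
  exact ⟨(.var 0, []), rfl⟩

theorem iter_mono {A X x : V} {n m : ℕ} (h : n ≤ m) (hx : x ∈ (rudStep A)^[n] X) :
    x ∈ (rudStep A)^[m] X := by
  induction h with
  | refl => exact hx
  | step _ ih => rw [Function.iterate_succ_apply']; exact mem_rudStep_of_mem ih

theorem mem_rudCl {A X x : V} : x ∈ rudCl A X ↔ ∃ n : ℕ, x ∈ (rudStep A)^[n] X := by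
  unfold rudCl; exact ZFSet.mem_iUnion

theorem mem_rudCl_of_mem {A X x : V} (hx : x ∈ X) : x ∈ rudCl A X := mem_rudCl.2 ⟨0, hx⟩

theorem empty_mem_rudCl (A X : V) : (∅ : V) ∈ rudCl A X :=
  mem_rudCl.2 ⟨1, empty_mem_rudStep A X⟩

theorem eval_mem_rudCl {A X : V} (t : RT) {v : ℕ → V} (hv : ∀ i, v i ∈ rudCl A X) :
    t.eval A v ∈ rudCl A X := by
  classical
  choose n hn using fun i => mem_rudCl.1 (hv i)
  let N := (Finset.range t.bd).sup n + 1
  let w : ℕ → V := fun i => if i < t.bd then v i else ∅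
  have hw : ∀ i, w i ∈ (rudStep A)^[N] X := fun i => by
    by_cases hi : i < t.bd
    · simp only [w, hi, if_true]
      exact iter_mono ((Finset.le_sup (f := n) (Finset.mem_range.2 hi)).trans (Nat.le_succ _))
        (hn i)
    · simp only [w, hi, if_false, N]
      rw [Function.iterate_succ_apply']
      exact empty_mem_rudStep _ _
  refine mem_rudCl.2 ⟨N + 1, ?_⟩
  rw [Function.iterate_succ_apply', RT.eval_congr A t (w := w) fun i hi => by simp [w, hi]]
  exact eval_mem_rudStep t hw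

theorem env_mem {X : V} {p : V → Prop} (h0 : p ∅) (hX : ∀ x ∈ X, p x) (l : List X) (i : ℕ) :
    p (env (l.map Subtype.val) i) := by
  unfold env
  by_cases hi : i < (l.map Subtype.val).length
  · rw [List.getD_eq_getElem _ _ hi]
    simp only [List.getElem_map]
    exact hX _ (Subtype.property _)
  · rw [List.getD_eq_default _ _ (not_lt.1 hi)]; exact h0

theorem rudCl_transitive {A X : V} (hX : X.IsTransitive) : (rudCl A X).IsTransitive := by
  let G : V → Prop := fun x => ∃ S : Set V, x ∈ S ∧ (∀ y ∈ S, y ∈ rudCl A X) ∧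
    ∀ y ∈ S, ∀ z ∈ y, z ∈ S
  have G1 : ∀ x, G x → x ∈ rudCl A X := fun x ⟨S, h1, h2, _⟩ => h2 x h1
  have G2 : ∀ x z, G x → z ∈ x → G z := fun x z ⟨S, h1, h2, h3⟩ hz => ⟨S, h3 x h1 z hz, h2, h3⟩
  have G3 : ∀ x, x ∈ rudCl A X → (∀ z ∈ x, G z) → G x := fun x hx h =>
    ⟨insert x {y | G y}, Set.mem_insert _ _, by
      rintro y (rfl | hy)
      · exact hx
      · exact G1 y hy, by
      rintro y (rfl | hy) z hz
      · exact Or.inr (h z hz)
      · exact Or.inr (G2 y z hy hz)⟩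
  have G0 : G ∅ := G3 _ (empty_mem_rudCl A X) fun z hz => (ZFSet.notMem_empty z hz).elim
  have GE : ∀ (t : RT) (v : ℕ → V), (∀ i, G (v i)) → G (t.eval A v) := by
    intro t
    induction t with
    | var i => exact fun v hv => hv i
    | diff s t hs _ =>
      intro v hv
      refine G3 _ (eval_mem_rudCl _ fun i => G1 _ (hv i)) fun z hz => ?_
      exact G2 _ z (hs v hv) (ZFSet.mem_sdiff.1 hz).1
    | upair s t hs ht =>
      intro v hv
      refine G3 _ (eval_mem_rudCl _ fun i => G1 _ (hv i)) fun z hz => ?_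
      rcases ZFSet.mem_pair.1 hz with rfl | rfl
      · exact hs v hv
      · exact ht v hv
    | bunion s g hs hg =>
      intro v hv
      refine G3 _ (eval_mem_rudCl _ fun i => G1 _ (hv i)) fun z hz => ?_
      obtain ⟨y, hy, hz⟩ := mem_bunion.1 hz
      exact G2 _ z (hg _ (cons_all (G2 _ y (hs v hv) hy) hv)) hz
    | inter s hs =>
      intro v hv
      refine G3 _ (eval_mem_rudCl _ fun i => G1 _ (hv i)) fun z hz => ?_
      exact G2 _ z (hs v hv) (ZFSet.mem_inter.1 hz).1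
  have GN : ∀ n : ℕ, ∀ x ∈ (rudStep A)^[n] X, G x := by
    intro n
    induction n with
    | zero => exact fun x hx => ⟨X, hx, fun y hy => mem_rudCl_of_mem hy, fun y hy z hz => hX y hy hz⟩
    | succ n ih =>
      intro x hx
      rw [Function.iterate_succ_apply'] at hx
      unfold rudStep at hx
      obtain ⟨q, rfl⟩ := ZFSet.mem_range.1 hx
      exact GE _ _ (env_mem G0 ih q.2)
  intro x hx z hz
  obtain ⟨n, hn⟩ := mem_rudCl.1 hx
  exact G1 z (G2 x z (GN n x hn) hz)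

/-! ### the stages -/

theorem J_zero : J 0 = ∅ := by simp [J, stage]
theorem Tr_zero : Tr 0 = ∅ := by simp [Tr, stage]

theorem Tr_succ (ν : Ordinal.{0}) : Tr (ν + 1) = Tr ν ∪ truth ν (J ν) (Tr ν) := by
  simp only [Tr, J, stage, Ordinal.limitRecOn_add_one]

theorem J_succ (ν : Ordinal.{0}) : J (ν + 1) = rudCl (Tr (ν + 1)) (insert (J ν) (J ν)) := by
  simp only [Tr, J, stage, Ordinal.limitRecOn_add_one]

theorem mem_J_limit {ν : Ordinal.{0}} (h : Order.IsSuccLimit ν) {x : V} :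
    x ∈ J ν ↔ ∃ a < ν, x ∈ J a := by
  unfold J
  conv_lhs => unfold stage
  rw [Ordinal.limitRecOn_limit _ _ _ _ h]
  simp only [ZFSet.mem_iUnion]
  exact ⟨fun ⟨a, ha⟩ => ⟨a.1, a.2, ha⟩, fun ⟨a, ha, hx⟩ => ⟨⟨a, ha⟩, hx⟩⟩

theorem mem_Tr_limit {ν : Ordinal.{0}} (h : Order.IsSuccLimit ν) {x : V} :
    x ∈ Tr ν ↔ ∃ a < ν, x ∈ Tr a := by
  unfold Tr
  conv_lhs => unfold stage
  rw [Ordinal.limitRecOn_limit _ _ _ _ h]
  simp only [ZFSet.mem_iUnion]
  exact ⟨fun ⟨a, ha⟩ => ⟨a.1, a.2, ha⟩, fun ⟨a, ha, hx⟩ => ⟨⟨a, ha⟩, hx⟩⟩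

theorem J_mem_succ (ν : Ordinal.{0}) : J ν ∈ J (ν + 1) := by
  rw [J_succ]; exact mem_rudCl_of_mem (ZFSet.mem_insert _ _)

theorem mem_J_succ {ν : Ordinal.{0}} {x : V} (hx : x ∈ J ν) : x ∈ J (ν + 1) := by
  rw [J_succ]; exact mem_rudCl_of_mem (ZFSet.mem_insert_of_mem _ hx)

theorem J_mono {a b : Ordinal.{0}} (h : a ≤ b) {x : V} (hx : x ∈ J a) : x ∈ J b := by
  induction b using Ordinal.limitRecOn with
  | zero => rwa [nonpos_iff_eq_zero.1 h] at hx
  | add_one b ih =>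
    rcases h.eq_or_lt with rfl | h
    · exact hx
    · exact mem_J_succ (ih (Order.lt_add_one_iff.1 h))
  | limit b hb _ =>
    rcases h.eq_or_lt with rfl | h
    · exact hx
    · exact (mem_J_limit hb).2 ⟨a, h, hx⟩

theorem J_transitive (ν : Ordinal.{0}) : (J ν).IsTransitive := by
  induction ν using Ordinal.limitRecOn with
  | zero => rw [J_zero]; exact ZFSet.isTransitive_empty
  | add_one b ih =>
    rw [J_succ]
    refine rudCl_transitive fun y hy z hz => ?_
    rcases ZFSet.mem_insert_iff.1 hy with rfl | hy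
    · exact ZFSet.mem_insert_of_mem _ hz
    · exact ZFSet.mem_insert_of_mem _ (ih y hy hz)
  | limit b hb ih =>
    intro y hy z hz
    obtain ⟨a, ha, hy⟩ := (mem_J_limit hb).1 hy
    exact (mem_J_limit hb).2 ⟨a, ha, ih a ha y hy hz⟩

theorem mem_Tr {ν : Ordinal.{0}} {p : V} : p ∈ Tr ν ↔ ∃ ξ < ν, p ∈ truth ξ (J ξ) (Tr ξ) := by
  induction ν using Ordinal.limitRecOn with
  | zero => simp [Tr_zero]
  | add_one b ih =>
    rw [Tr_succ, ZFSet.mem_union, ih]
    constructor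
    · rintro (⟨ξ, h1, h2⟩ | h)
      · exact ⟨ξ, h1.trans (lt_add_one b), h2⟩
      · exact ⟨b, lt_add_one b, h⟩
    · rintro ⟨ξ, h1, h2⟩
      rcases (Order.lt_add_one_iff.1 h1).eq_or_lt with rfl | h1
      · exact Or.inr h2
      · exact Or.inl ⟨ξ, h1, h2⟩
  | limit b hb ih =>
    rw [mem_Tr_limit hb]
    constructor
    · rintro ⟨a, ha, h⟩
      obtain ⟨ξ, h1, h2⟩ := (ih a ha).1 h
      exact ⟨ξ, h1.trans ha, h2⟩
    · rintro ⟨ξ, h1, h2⟩
      exact ⟨ξ + 1, hb.add_one_lt h1, (ih _ (hb.add_one_lt h1)).2 ⟨ξ, lt_add_one ξ, h2⟩⟩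

theorem eval_mem_J {ν : Ordinal.{0}} (t : RT) {v : ℕ → V} (hv : ∀ i, v i ∈ J (ν + 1)) :
    t.eval (Tr (ν + 1)) v ∈ J (ν + 1) := by
  rw [J_succ] at *
  exact eval_mem_rudCl t hv

theorem empty_mem_J (ν : Ordinal.{0}) : (∅ : V) ∈ J (ν + 1) := by
  rw [J_succ]; exact empty_mem_rudCl _ _

theorem upair_mem_J {ν : Ordinal.{0}} {x y : V} (hx : x ∈ J (ν + 1)) (hy : y ∈ J (ν + 1)) :
    ({x, y} : V) ∈ J (ν + 1) :=
  eval_mem_J (.upair (.var 0) (.var 1)) (v := cons x fun _ => y) (cons_all hx fun _ => hy)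

theorem pair_mem_J {ν : Ordinal.{0}} {x y : V} (hx : x ∈ J (ν + 1)) (hy : y ∈ J (ν + 1)) :
    ZFSet.pair x y ∈ J (ν + 1) := by
  unfold ZFSet.pair
  refine upair_mem_J ?_ (upair_mem_J hx hy)
  rw [← ZFSet.pair_eq_singleton]; exact upair_mem_J hx hx

theorem inter_mem_J {ν : Ordinal.{0}} {x y : V} (hx : x ∈ J (ν + 1)) (hy : y ∈ J (ν + 1)) :
    x ∩ y ∈ J (ν + 1) := by
  have := eval_mem_J (.diff (.var 0) (.diff (.var 0) (.var 1))) (v := cons x fun _ => y)
    (cons_all hx fun _ => hy)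
  have e : x ∩ y = x \ (x \ y) := by
    ext z; simp only [ZFSet.mem_inter, ZFSet.mem_sdiff]; tauto
  rw [e]; exact this

/-! ### the class `C2` -/

theorem exists_level {ι : Type*} [Small.{0} ι] (f : ι → V) (hf : ∀ i, C2 (f i))
    (ξ : Ordinal.{0}) : ∃ ν, ξ ≤ ν ∧ ∀ i, f i ∈ J ν := by
  choose n hn using hf
  exact ⟨max ξ (iSup n), le_max_left _ _,
    fun i => J_mono ((Ordinal.le_iSup n i).trans (le_max_right _ _)) (hn i)⟩

theorem C2.trans {x y : V} (hx : C2 x) (hy : y ∈ x) : C2 y :=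
  let ⟨ν, h⟩ := hx; ⟨ν, J_transitive ν x h hy⟩

theorem C2.pair {x y : V} (hx : C2 x) (hy : C2 y) : C2 (ZFSet.pair x y) := by
  obtain ⟨a, ha⟩ := hx
  obtain ⟨b, hb⟩ := hy
  exact ⟨max a b + 1, pair_mem_J (mem_J_succ (J_mono (le_max_left _ _) ha))
    (mem_J_succ (J_mono (le_max_right _ _) hb))⟩

theorem C2_empty : C2 ∅ := ⟨0 + 1, empty_mem_J 0⟩

theorem C2_J (ν : Ordinal.{0}) : C2 (J ν) := ⟨ν + 1, J_mem_succ ν⟩

/-! ### rudimentary separation; the ordinals are in `C2` -/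

/-- rudimentary properties -/
def RP (P : (ℕ → V) → Prop) : Prop := ∃ t : RT, ∀ A v, P v ↔ ∃ z, z ∈ t.eval A v

theorem RP.mem (i j : ℕ) : RP fun v => v i ∈ v j :=
  ⟨.diff (.upair (.var i) (.var i)) (.diff (.upair (.var i) (.var i)) (.var j)), fun A v => by
    simp [RT.eval]⟩

theorem RP.not {P : (ℕ → V) → Prop} (h : RP P) : RP fun v => ¬ P v := by
  obtain ⟨t, ht⟩ := h
  let e : RT := .diff (.var 0) (.var 0)
  have he : ∀ A v, e.eval A v = ∅ := fun A v => by ext; simp [e, RT.eval]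
  refine ⟨.diff (.upair e e) (.bunion t (.upair e e)), fun A v => ?_⟩
  beta_reduce
  rw [ht A v]
  have h1 : ∀ z, z ∈ (RT.diff (.upair e e) (.bunion t (.upair e e))).eval A v ↔
      z = ∅ ∧ ¬ ∃ y ∈ t.eval A v, z = ∅ := fun z => by
    rw [RT.eval, ZFSet.mem_sdiff, mem_bunion]
    simp [RT.eval, he]
  simp only [h1]
  constructor
  · intro h; exact ⟨∅, rfl, fun ⟨y, hy, _⟩ => h ⟨y, hy⟩⟩
  · rintro ⟨z, rfl, h⟩ ⟨y, hy⟩; exact h ⟨y, hy, rfl⟩

theorem RP.or {P Q : (ℕ → V) → Prop} (h : RP P) (h' : RP Q) : RP fun v => P v ∨ Q v := by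
  obtain ⟨s, hs⟩ := h
  obtain ⟨t, ht⟩ := h'
  refine ⟨.bunion (.upair s t) (.var 0), fun A v => ?_⟩
  beta_reduce
  rw [hs A v, ht A v]
  simp only [mem_bunion]
  simp only [RT.eval, ZFSet.mem_pair, cons_zero]
  constructor
  · rintro (⟨z, hz⟩ | ⟨z, hz⟩)
    · exact ⟨z, _, Or.inl rfl, hz⟩
    · exact ⟨z, _, Or.inr rfl, hz⟩
  · rintro ⟨z, y, rfl | rfl, hz⟩
    · exact Or.inl ⟨z, hz⟩
    · exact Or.inr ⟨z, hz⟩

theorem RP.congr {P Q : (ℕ → V) → Prop} (h : RP P) (e : ∀ v, P v ↔ Q v) : RP Q := by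
  rwa [show P = Q from funext fun v => propext (e v)] at h

theorem RP.and {P Q : (ℕ → V) → Prop} (h : RP P) (h' : RP Q) : RP fun v => P v ∧ Q v :=
  (h.not.or h'.not).not.congr fun v => by tauto

theorem RP.bex {P : (ℕ → V) → Prop} (i : ℕ) (h : RP P) : RP fun v => ∃ z ∈ v i, P (cons z v) := by
  obtain ⟨t, ht⟩ := h
  refine ⟨.bunion (.var i) t, fun A v => ?_⟩
  simp only [mem_bunion, ht A]
  constructor
  · rintro ⟨z, hz, y, hy⟩; exact ⟨y, z, hz, hy⟩
  · rintro ⟨y, z, hz, hy⟩; exact ⟨z, hz, y, hy⟩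

theorem RP.ball {P : (ℕ → V) → Prop} (i : ℕ) (h : RP P) :
    RP fun v => ∀ z ∈ v i, P (cons z v) :=
  (h.not.bex i).not.congr fun v => by push Not; rfl

theorem RP.sep_mem {P : (ℕ → V) → Prop} (h : RP P) {ν : Ordinal.{0}} {v : ℕ → V}
    (hv : ∀ i, v i ∈ J (ν + 1)) (i : ℕ) :
    ZFSet.sep (fun z => P (cons z v)) (v i) ∈ J (ν + 1) := by
  obtain ⟨t, ht⟩ := h
  have := eval_mem_J (.bunion (.var i) (.bunion t (.upair (.var 1) (.var 1)))) hv
  have e : ZFSet.sep (fun z => P (cons z v)) (v i) =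
      (RT.bunion (.var i) (.bunion t (.upair (.var 1) (.var 1)))).eval (Tr (ν + 1)) v := by
    ext x
    simp only [mem_bunion, ZFSet.mem_sep, ht (Tr (ν + 1))]
    simp only [RT.eval, ZFSet.mem_pair, or_self, cons_succ, cons_zero]
    constructor
    · rintro ⟨h1, z, hz⟩; exact ⟨x, h1, z, hz, rfl⟩
    · rintro ⟨y, h1, z, hz, rfl⟩; exact ⟨h1, z, hz⟩
  rw [e]; exact this

theorem RP_ordinal : RP fun v => (v 0).IsOrdinal := by
  have h := ((((RP.mem 0 2).ball 0).ball 0).and ((((RP.mem 0 2).ball 0).ball 0).ball 0))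
  refine h.congr fun v => ?_
  rw [ZFSet.isOrdinal_iff_forall_mem_isTransitive]
  simp only [cons_zero, ZFSet.IsTransitive, ZFSet.subset_def]
  rfl

theorem C2_ord (α : Ordinal.{0}) : C2 α.toZFSet := by
  induction α using WellFoundedLT.induction with
  | ind α ih =>
  by_contra hα
  obtain ⟨ν, -, hν⟩ := exists_level (fun b : Set.Iio α => b.1.toZFSet) (fun b => ih b.1 b.2) 0
  have h := RP_ordinal.sep_mem (ν := ν) (v := fun _ => J ν) (fun _ => J_mem_succ ν) 0
  refine hα ⟨ν + 1, ?_⟩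
  have e : α.toZFSet = ZFSet.sep (fun z => (cons z (fun _ => J ν) 0).IsOrdinal) (J ν) := by
    ext x
    rw [ZFSet.mem_sep, Ordinal.mem_toZFSet_iff]
    constructor
    · rintro ⟨a, ha, rfl⟩
      exact ⟨hν ⟨a, ha⟩, ZFSet.isOrdinal_toZFSet a⟩
    · rintro ⟨h1, h2⟩
      refine ⟨x.rank, ?_, h2.toZFSet_rank_eq⟩
      have h3 : x.rank.toZFSet = x := h2.toZFSet_rank_eq
      rcases lt_trichotomy x.rank α with h | h | h
      · exact h
      · exact (hα ⟨ν, by rw [← h, h3]; exact h1⟩).elim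
      · refine (hα (C2.trans ⟨ν, h1⟩ ?_)).elim
        rw [← h3]; exact Ordinal.toZFSet_mem_toZFSet_iff.2 h
  rw [e]; exact h

theorem C2_natZ (n : ℕ) : C2 (natZ n) := C2_ord _

theorem C2_code (φ : Fm) : C2 φ.code := by
  induction φ with
  | mem i j => exact (C2_natZ _).pair ((C2_natZ _).pair (C2_natZ _))
  | eq i j => exact (C2_natZ _).pair ((C2_natZ _).pair (C2_natZ _))
  | tr i => exact (C2_natZ _).pair (C2_natZ _)
  | memS i k => exact (C2_natZ _).pair ((C2_natZ _).pair (C2_natZ _))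
  | neg φ h => exact (C2_natZ _).pair h
  | and φ ψ h h' => exact (C2_natZ _).pair (h.pair h')
  | ex φ h => exact (C2_natZ _).pair h
  | exS φ h => exact (C2_natZ _).pair h

theorem C2_listZ (l : List V) (h : ∀ x ∈ l, C2 x) : C2 (listZ l) := by
  induction l with
  | nil => exact C2_empty
  | cons a l ih =>
    exact (h a List.mem_cons_self).pair (ih fun x hx => h x (List.mem_cons_of_mem _ hx))

theorem natZ_inj {m n : ℕ} : natZ m = natZ n ↔ m = n := by
  unfold natZ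
  rw [Ordinal.toZFSet_injective.eq_iff, Nat.cast_inj]

theorem code_inj : ∀ φ ψ : Fm, φ.code = ψ.code → φ = ψ := by
  intro φ
  induction φ with
  | mem i j => intro ψ h; cases ψ <;> simp_all [Fm.code, natZ_inj]
  | eq i j => intro ψ h; cases ψ <;> simp_all [Fm.code, natZ_inj]
  | tr i => intro ψ h; cases ψ <;> simp_all [Fm.code, natZ_inj]
  | memS i k => intro ψ h; cases ψ <;> simp_all [Fm.code, natZ_inj]
  | neg φ ih =>
    intro ψ h
    cases ψ <;> simp only [Fm.code, ZFSet.pair_inj, natZ_inj] at h <;> try omega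
    rw [ih _ h.2]
  | and φ φ' ih ih' =>
    intro ψ h
    cases ψ <;> simp only [Fm.code, ZFSet.pair_inj, natZ_inj] at h <;> try omega
    rw [ih _ h.2.1, ih' _ h.2.2]
  | ex φ ih =>
    intro ψ h
    cases ψ <;> simp only [Fm.code, ZFSet.pair_inj, natZ_inj] at h <;> try omega
    rw [ih _ h.2]
  | exS φ ih =>
    intro ψ h
    cases ψ <;> simp only [Fm.code, ZFSet.pair_inj, natZ_inj] at h <;> try omega
    rw [ih _ h.2]

theorem pair_ne_empty (x y : V) : ZFSet.pair x y ≠ ∅ := fun h => by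
  have : ({x} : V) ∈ ZFSet.pair x y := by unfold ZFSet.pair; simp
  rw [h] at this; exact ZFSet.notMem_empty _ this

theorem listZ_inj : ∀ l l' : List V, listZ l = listZ l' → l = l'
  | [], [], _ => rfl
  | [], _ :: _, h => (pair_ne_empty _ _ h.symm).elim
  | _ :: _, [], h => (pair_ne_empty _ _ h).elim
  | a :: l, b :: l', h => by
    simp only [listZ, ZFSet.pair_inj] at h
    rw [h.1, listZ_inj l l' h.2]

theorem mem_Tr_iff {ν μ : Ordinal.{0}} (h : ν < μ) (φ : Fm) (l : List (J ν))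
    (h1 : φ.fo ≤ l.length) (h2 : φ.so = 0) :
    ZFSet.pair (ω * ν).toZFSet (ZFSet.pair φ.code (listZ (l.map Subtype.val))) ∈ Tr μ ↔
      Sat (J ν) (Tr ν) φ (env (l.map Subtype.val)) (fun _ => ∅) := by
  rw [mem_Tr]
  constructor
  · rintro ⟨ξ, -, hp⟩
    unfold truth at hp
    obtain ⟨⟨⟨ψ, l'⟩, h4, h5, h3⟩, e⟩ := ZFSet.mem_range.1 hp
    simp only [ZFSet.pair_inj] at e
    obtain ⟨e1, e2, e3⟩ := e
    have e4 : ξ = ν := mul_left_cancel₀ Ordinal.omega0_ne_zero (Ordinal.toZFSet_injective e1)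
    subst e4
    rw [← code_inj _ _ e2, ← listZ_inj _ _ e3]
    exact h3
  · intro h3
    refine ⟨ν, h, ?_⟩
    unfold truth
    exact ZFSet.mem_range.2 ⟨⟨(φ, l), h1, h2, h3⟩, rfl⟩

theorem Sat_congr (M T : V) (φ : Fm) : ∀ {v w : ℕ → V} (X : ℕ → Set V),
    (∀ i < φ.fo, v i = w i) → (Sat M T φ v X ↔ Sat M T φ w X) := by
  induction φ with
  | mem i j =>
    intro v w X h
    simp only [Sat]
    rw [h i (by simp only [Fm.fo]; omega), h j (by simp only [Fm.fo]; omega)]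
  | eq i j =>
    intro v w X h
    simp only [Sat]
    rw [h i (by simp only [Fm.fo]; omega), h j (by simp only [Fm.fo]; omega)]
  | tr i => intro v w X h; simp only [Sat]; rw [h i (Nat.lt_succ_self i)]
  | memS i k => intro v w X h; simp only [Sat]; rw [h i (Nat.lt_succ_self i)]
  | neg φ ih => intro v w X h; simp only [Sat]; rw [ih X h]
  | and φ ψ ih ih' =>
    intro v w X h
    simp only [Sat]
    rw [ih X fun i hi => h i (lt_max_of_lt_left hi), ih' X fun i hi => h i (lt_max_of_lt_right hi)]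
  | ex φ ih =>
    intro v w X h
    simp only [Sat]
    refine exists_congr fun a => and_congr_right fun _ => ih X fun i hi => ?_
    cases i with
    | zero => rfl
    | succ i => exact h i (by simp only [Fm.fo]; omega)
  | exS φ ih =>
    intro v w X h
    simp only [Sat]
    exact exists_congr fun S => and_congr_right fun _ => and_congr_right fun _ => ih _ h

/-- ordered pair as a rudimentary term -/
def RT.opair (s t : RT) : RT := .upair (.upair s s) (.upair s t)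

theorem RT.eval_opair (A : V) (s t : RT) (v : ℕ → V) :
    (s.opair t).eval A v = ZFSet.pair (s.eval A v) (t.eval A v) := by
  simp only [RT.opair, RT.eval, ZFSet.pair, ZFSet.pair_eq_singleton]

/-- Sets definable over a level belong to `C2`. -/
theorem C2_sep (ν : Ordinal.{0}) (φ : Fm) (h2 : φ.so = 0) (v : ℕ → V) (hv : ∀ i, v i ∈ J ν) :
    C2 (ZFSet.sep (fun a => Sat (J ν) (Tr ν) φ (cons a v) (fun _ => ∅)) (J ν)) := by
  let l : List (J ν) := List.ofFn fun k : Fin φ.fo => ⟨v k, hv k⟩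
  let w : ℕ → V := cons (ω * ν).toZFSet (cons φ.code (cons (listZ (l.map Subtype.val))
    fun _ => J ν))
  have hw : ∀ i, C2 (w i) := cons_all (C2_ord _) (cons_all (C2_code φ) (cons_all
    (C2_listZ _ fun x hx => by
      obtain ⟨y, -, rfl⟩ := List.mem_map.1 hx
      exact ⟨ν, y.2⟩) fun _ => C2_J ν))
  obtain ⟨μ, hμ, hwμ⟩ := exists_level w hw ν
  let p : RT := (RT.var 1).opair ((RT.var 2).opair ((RT.var 0).opair (.var 3)))
  have := eval_mem_J (.bunion (.var 3) (.bunion (.inter (.upair p p)) (.upair (.var 1) (.var 1))))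
    (fun i => mem_J_succ (hwμ i))
  refine ⟨μ + 1, ?_⟩
  have key : ∀ a (ha : a ∈ J ν), p.eval (Tr (μ + 1)) (cons a w) ∈ Tr (μ + 1) ↔
      Sat (J ν) (Tr ν) φ (cons a v) (fun _ => ∅) := fun a ha => by
    have h := mem_Tr_iff (ν := ν) (μ := μ + 1) (Order.lt_add_one_iff.2 hμ) φ (⟨a, ha⟩ :: l)
      (by simp [l]) h2
    rw [Sat_congr _ _ φ (w := cons a v) _ (fun i hi => by
      cases i with
      | zero => rfl
      | succ i => exact env_ofFn v hv φ.fo (Nat.lt_of_succ_lt hi))] at h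
    rw [← h]
    simp only [p, RT.eval_opair]
    rfl
  have e : ZFSet.sep (fun a => Sat (J ν) (Tr ν) φ (cons a v) (fun _ => ∅)) (J ν) =
      (RT.bunion (.var 3) (.bunion (.inter (.upair p p)) (.upair (.var 1) (.var 1)))).eval
        (Tr (μ + 1)) w := by
    ext x
    simp only [mem_bunion, ZFSet.mem_sep]
    simp only [RT.eval, ZFSet.mem_pair, or_self, cons_succ, cons_zero, ZFSet.mem_inter]
    constructor
    · rintro ⟨h1, h3⟩
      exact ⟨x, h1, _, ⟨rfl, (key x h1).2 h3⟩, rfl⟩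
    · rintro ⟨y, h1, z, ⟨rfl, hz⟩, rfl⟩
      exact ⟨h1, (key x h1).1 hz⟩
  rw [e]; exact this

end Pool.Agent.Lib.MP_f9eb18_lc
end

-- part Pool.Agent.Lib.MP_f9eb18_lc.SOD
section

/-! Second-order definability over `ω₁`. -/

namespace Pool.Agent.Lib.MP_f9eb18_lc

open Ordinal

abbrev Rel2 : Type := O → O → Prop

def Hm (h : O → Set ℕ) (a j : O) : Prop := ∃ n, j = io n ∧ n ∈ h a

def IsNat (a : O) : Prop := ∃ n, a = io n

theorem Hm_io {h : O → Set ℕ} {a : O} {n : ℕ} : Hm h a (io n) ↔ n ∈ h a :=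
  ⟨fun ⟨_, h1, h2⟩ => (io_inj.1 h1) ▸ h2, fun h => ⟨n, rfl, h⟩⟩

/-- Properties definable in second-order logic over `(ω₁, <, h)`, with a predicate for the
family of reals `K`. -/
inductive SOD (h : O → Set ℕ) (K : Set (Set ℕ)) : ((ℕ → O) → (ℕ → Rel2) → Prop) → Prop
  | lt (i j : ℕ) : SOD h K fun u _ => u i < u j
  | eq (i j : ℕ) : SOD h K fun u _ => u i = u j
  | nat (i : ℕ) : SOD h K fun u _ => IsNat (u i)
  | hm (i j : ℕ) : SOD h K fun u _ => Hm h (u i) (u j)
  | rel (k i j : ℕ) : SOD h K fun u R => R k (u i) (u j)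
  | inK (k : ℕ) : SOD h K fun _ R => {n | R k (io n) (io n)} ∈ K
  | not {P : (ℕ → O) → (ℕ → Rel2) → Prop} : SOD h K P → SOD h K fun u R => ¬ P u R
  | and {P Q : (ℕ → O) → (ℕ → Rel2) → Prop} :
      SOD h K P → SOD h K Q → SOD h K fun u R => P u R ∧ Q u R
  | ex' {P : (ℕ → O) → (ℕ → Rel2) → Prop} : SOD h K P → SOD h K fun u R => ∃ x, P (cons x u) R
  | exR' {P : (ℕ → O) → (ℕ → Rel2) → Prop} : SOD h K P → SOD h K fun u R => ∃ S, P u (cons S R)
  | ren {P : (ℕ → O) → (ℕ → Rel2) → Prop} (σ τ : ℕ → ℕ) :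
      SOD h K P → SOD h K fun u R => P (fun n => u (σ n)) (fun n => R (τ n))

variable {h : O → Set ℕ} {K : Set (Set ℕ)}

theorem SOD.congr {P Q : (ℕ → O) → (ℕ → Rel2) → Prop} (hP : SOD h K P)
    (e : ∀ u R, P u R ↔ Q u R) : SOD h K Q := by
  rwa [show P = Q from funext fun u => funext fun R => propext (e u R)] at hP

theorem SOD.or {P Q : (ℕ → O) → (ℕ → Rel2) → Prop} (hP : SOD h K P) (hQ : SOD h K Q) :
    SOD h K fun u R => P u R ∨ Q u R :=
  (hP.not.and hQ.not).not.congr fun _ _ => by tauto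

theorem SOD.imp {P Q : (ℕ → O) → (ℕ → Rel2) → Prop} (hP : SOD h K P) (hQ : SOD h K Q) :
    SOD h K fun u R => P u R → Q u R :=
  (hP.and hQ.not).not.congr fun _ _ => by tauto

theorem SOD.iff {P Q : (ℕ → O) → (ℕ → Rel2) → Prop} (hP : SOD h K P) (hQ : SOD h K Q) :
    SOD h K fun u R => P u R ↔ Q u R :=
  ((hP.imp hQ).and (hQ.imp hP)).congr fun _ _ => by tauto

theorem SOD.le (i j : ℕ) : SOD h K fun u _ => u i ≤ u j :=
  (SOD.lt j i).not.congr fun _ _ => not_lt

theorem SOD.ex {Q : (ℕ → O) → (ℕ → Rel2) → O → Prop}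
    (hQ : SOD h K fun u R => Q (fun n => u (n + 1)) R (u 0)) :
    SOD h K fun u R => ∃ x, Q u R x := hQ.ex'

theorem SOD.all {Q : (ℕ → O) → (ℕ → Rel2) → O → Prop}
    (hQ : SOD h K fun u R => Q (fun n => u (n + 1)) R (u 0)) :
    SOD h K fun u R => ∀ x, Q u R x :=
  (SOD.ex (Q := fun u R x => ¬ Q u R x) hQ.not).not.congr fun _ _ => by push Not; rfl

theorem SOD.exR {Q : (ℕ → O) → (ℕ → Rel2) → Rel2 → Prop}
    (hQ : SOD h K fun u R => Q u (fun n => R (n + 1)) (R 0)) :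
    SOD h K fun u R => ∃ S, Q u R S := hQ.exR'

theorem SOD.allR {Q : (ℕ → O) → (ℕ → Rel2) → Rel2 → Prop}
    (hQ : SOD h K fun u R => Q u (fun n => R (n + 1)) (R 0)) :
    SOD h K fun u R => ∀ S, Q u R S :=
  (SOD.exR (Q := fun u R x => ¬ Q u R x) hQ.not).not.congr fun _ _ => by push Not; rfl

theorem SOD.club (k : ℕ) : SOD h K fun _ R => IsClub {x | R k x x} := by
  have : SOD h K fun _ R => (∀ D : Rel2, (∀ x, D x x → R k x x) → (∃ x, D x x) →
      ∀ a, (∀ x, D x x → x ≤ a) → (∀ b, (∀ x, D x x → x ≤ b) → a ≤ b) → R k a a) ∧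
      ∀ a, ∃ b, R k b b ∧ a ≤ b := by
    repeat (first
      | with_reducible exact SOD.le _ _
      | with_reducible exact SOD.rel _ _ _
      | with_reducible apply SOD.and
      | with_reducible apply SOD.imp
      | with_reducible apply SOD.all
      | with_reducible apply SOD.allR
      | with_reducible apply SOD.ex)
  refine this.congr fun _ R => ⟨fun ⟨h1, h2⟩ => ⟨fun s hs hne _ a ha => ?_, h2⟩,
    fun hc => ⟨fun D h1 h2 a h3 h4 => ?_, hc.isCofinal⟩⟩
  · exact h1 (fun x _ => x ∈ s) hs hne a ha.1 ha.2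
  · exact hc.isLUB_mem (t := {x | D x x}) h1 h2 ⟨h3, h4⟩

theorem SOD.stat {S : (ℕ → O) → (ℕ → Rel2) → O → Prop}
    (hS : SOD h K fun u R => S (fun n => u (n + 1)) R (u 0)) :
    SOD h K fun u R => IsStationary {x | S u R x} := by
  have : SOD h K fun u R => ∀ C : Rel2, IsClub {x | C x x} → ∃ x, S u R x ∧ C x x := by
    refine SOD.allR (SOD.imp (SOD.club 0) (SOD.ex (SOD.and ?_ (SOD.rel 0 0 0))))
    exact hS.ren (fun n => n) (fun n => n + 1)
  exact this.congr fun u R => ⟨fun H t ht => H (fun x _ => x ∈ t) ht, fun H C hC => H hC⟩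

theorem SOD.inK' (S : (ℕ → O) → (ℕ → Rel2) → O → Prop)
    (hS : SOD h K fun u R => S (fun n => u (n + 1)) R (u 0)) :
    SOD h K fun u R => {n | S u R (io n)} ∈ K := by
  have : SOD h K fun u R => ∃ C : Rel2, (∀ x, C x x ↔ S u R x) ∧ {n | C (io n) (io n)} ∈ K := by
    refine SOD.exR (SOD.and (SOD.all (SOD.iff (SOD.rel 0 0 0) ?_)) (SOD.inK 0))
    exact hS.ren (fun n => n) (fun n => n + 1)
  refine this.congr fun u R => ⟨fun ⟨C, h1, h2⟩ => ?_, fun H => ⟨fun x _ => S u R x,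
    fun _ => Iff.rfl, H⟩⟩
  simpa only [h1] using h2

/-! ### the leftmost stationary branch and the partition -/

/-- the leftmost branch of the tree of stationary nodes -/
noncomputable def Br (h : O → Set ℕ) : O → Prop :=
  wellFounded_lt.fix fun k ih =>
    ¬ IsStationary {a | ¬ Hm h a k ∧ ∀ j (hj : j < k), (Hm h a j ↔ ih j hj)}

theorem Br_iff (k : O) :
    Br h k ↔ ¬ IsStationary {a | ¬ Hm h a k ∧ ∀ j, j < k → (Hm h a j ↔ Br h j)} := by
  conv_lhs => unfold Br; rw [WellFounded.fix_eq]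
  rfl

theorem SOD.br (i : ℕ) : SOD h K fun u _ => Br h (u i) := by
  have : SOD h K fun u _ => ∃ X : Rel2, (∀ k, X k k ↔
      ¬ IsStationary {a | ¬ Hm h a k ∧ ∀ j, j < k → (Hm h a j ↔ X j j)}) ∧ X (u i) (u i) := by
    repeat (first
      | with_reducible exact SOD.lt _ _
      | with_reducible exact SOD.hm _ _
      | with_reducible exact SOD.rel _ _ _
      | with_reducible apply SOD.and
      | with_reducible apply SOD.not
      | with_reducible apply SOD.iff
      | with_reducible apply SOD.stat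
      | with_reducible apply SOD.imp
      | with_reducible apply SOD.all
      | with_reducible apply SOD.exR)
  refine this.congr fun u _ => ⟨fun ⟨X, h1, h2⟩ => ?_, fun H => ⟨fun x _ => Br h x,
    fun k => Br_iff k, H⟩⟩
  have : ∀ k, X k k ↔ Br h k := fun k => by
    induction k using WellFoundedLT.induction with
    | ind k ih =>
    rw [h1, Br_iff]
    refine not_congr (iff_of_eq (congrArg _ (Set.ext fun a => and_congr_right fun _ =>
      forall_congr' fun j => forall_congr' fun hj => ?_)))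
    rw [ih j hj]
  exact (this _).1 h2

/-- the set of `a` such that `h a` first differs from the branch at `k` -/
def Sp (h : O → Set ℕ) (k a : O) : Prop :=
  ¬ (Hm h a k ↔ Br h k) ∧ ∀ j, j < k → (Hm h a j ↔ Br h j)

theorem SOD.sp (i j : ℕ) : SOD h K fun u _ => Sp h (u i) (u j) := by
  unfold Sp
  repeat (first
    | with_reducible exact SOD.lt _ _
    | with_reducible exact SOD.hm _ _
    | with_reducible exact SOD.br _
    | with_reducible apply SOD.and
    | with_reducible apply SOD.not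
    | with_reducible apply SOD.iff
    | with_reducible apply SOD.imp
    | with_reducible apply SOD.all)

theorem Sp_unique {k k' a : O} (h1 : Sp h k a) (h2 : Sp h k' a) : k = k' := by
  rcases lt_trichotomy k k' with H | H | H
  · exact (h1.1 (h2.2 k H)).elim
  · exact H
  · exact (h2.1 (h1.2 k' H)).elim

theorem stat_agree (n : ℕ) : IsStationary {a | ∀ j, j < io n → (Hm h a j ↔ Br h j)} := by
  induction n with
  | zero =>
    refine IsStationary.univ.mono fun a _ j hj => ?_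
    obtain ⟨m, hm, -⟩ := lt_io.1 hj
    omega
  | succ n ih =>
    have hlt : ∀ j, j < io (n + 1) → j < io n ∨ j = io n := fun j hj => by
      obtain ⟨m, hm, rfl⟩ := lt_io.1 hj
      rcases (Nat.lt_succ_iff.1 hm).eq_or_lt with rfl | hm
      · exact Or.inr rfl
      · exact Or.inl (io_lt.2 hm)
    by_cases hb : Br h (io n)
    · have h1 := (Br_iff _).1 hb
      have h2 : IsStationary ({a | ¬ Hm h a (io n) ∧ ∀ j, j < io n → (Hm h a j ↔ Br h j)} ∪
          {a | Hm h a (io n) ∧ ∀ j, j < io n → (Hm h a j ↔ Br h j)}) :=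
        ih.mono fun a ha => by
          by_cases H : Hm h a (io n)
          · exact Or.inr ⟨H, ha⟩
          · exact Or.inl ⟨H, ha⟩
      refine (((isStationary_union_iff cof_O_ne).1 h2).resolve_left h1).mono fun a ha j hj => ?_
      rcases hlt j hj with hj | rfl
      · exact ha.2 j hj
      · exact iff_of_true ha.1 hb
    · have h1 := not_not.1 (mt (Br_iff _).2 hb)
      refine h1.mono fun a ha j hj => ?_
      rcases hlt j hj with hj | rfl
      · exact ha.2 j hj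
      · exact iff_of_false ha.1 hb

theorem infinite_stat (hinj : Function.Injective h) :
    {n : ℕ | IsStationary {a | Sp h (io n) a}}.Infinite := by
  classical
  refine Set.infinite_of_forall_exists_gt fun n => ?_
  by_contra hcon
  push Not at hcon
  have h1 := stat_agree (h := h) (n + 1)
  have h2 : IsStationary ({a | ∀ m : ℕ, Hm h a (io m) ↔ Br h (io m)} ∪
      ⋃ m : {m : ℕ // n < m}, {a | Sp h (io m.1) a}) := h1.mono fun a ha => by
    by_cases H : ∀ m : ℕ, Hm h a (io m) ↔ Br h (io m)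
    · exact Or.inl H
    · have H' : ∃ m : ℕ, ¬ (Hm h a (io m) ↔ Br h (io m)) := not_forall.1 H
      refine Or.inr (Set.mem_iUnion.2 ⟨⟨Nat.find H', ?_⟩, Nat.find_spec H', fun j hj => ?_⟩)
      · by_contra hle
        exact Nat.find_spec H' (ha _ (io_lt.2 (by omega)))
      · obtain ⟨m, hm, rfl⟩ := lt_io.1 hj
        exact not_not.1 (Nat.find_min H' hm)
  rcases (isStationary_union_iff cof_O_ne).1 h2 with H | H
  · refine not_stat_of_subsingleton (fun a ha b hb => hinj (Set.ext fun m => ?_)) H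
    rw [← Hm_io, ← Hm_io, ha m, hb m]
  · obtain ⟨m, hm⟩ := (isStationary_iUnion_iff_of_countable cof_O_ne).1 H
    exact absurd (hcon m.1 hm) (not_le.2 m.2)

/-! ### enumeration of the stationary pieces -/

def Apc (h : O → Set ℕ) (k0 k1 k : O) : Prop :=
  IsNat k ∧ IsStationary {a | Sp h k a} ∧ ¬ k = k0 ∧ ¬ k = k1

theorem SOD.apc (a b c : ℕ) : SOD h K fun u _ => Apc h (u a) (u b) (u c) := by
  unfold Apc
  repeat (first
    | with_reducible exact SOD.nat _
    | with_reducible exact SOD.eq _ _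
    | with_reducible exact SOD.sp _ _
    | with_reducible apply SOD.and
    | with_reducible apply SOD.not
    | with_reducible apply SOD.stat)

def En (h : O → Set ℕ) (k0 k1 x y : O) : Prop :=
  ∃ F : Rel2, (∀ a, IsNat a → ∃ b, F a b) ∧ (∀ a b, F a b → IsNat a ∧ Apc h k0 k1 b) ∧
    (∀ b, Apc h k0 k1 b → ∃ a, F a b) ∧
    (∀ a b a' b', F a b → F a' b' → (a < a' ↔ b < b')) ∧ F x y

theorem SOD.en (a b c d : ℕ) : SOD h K fun u _ => En h (u a) (u b) (u c) (u d) := by
  unfold En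
  repeat (first
    | with_reducible exact SOD.nat _
    | with_reducible exact SOD.lt _ _
    | with_reducible exact SOD.rel _ _ _
    | with_reducible exact SOD.apc _ _ _
    | with_reducible apply SOD.and
    | with_reducible apply SOD.iff
    | with_reducible apply SOD.imp
    | with_reducible apply SOD.all
    | with_reducible apply SOD.ex
    | with_reducible apply SOD.exR)

theorem En_iff {k0 k1 : O} (hinf : {n : ℕ | Apc h k0 k1 (io n)}.Infinite) (n : ℕ) (y : O) :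
    En h k0 k1 (io n) y ↔ y = io (Nat.nth (fun n => Apc h k0 k1 (io n)) n) := by
  constructor
  · rintro ⟨F, h1, h2, h3, h4, h5⟩
    have hf : ∀ a b b', F a b → F a b' → b = b' := fun a b b' H H' =>
      le_antisymm (not_lt.1 fun c => lt_irrefl a ((h4 _ _ _ _ H' H).2 c))
        (not_lt.1 fun c => lt_irrefl a ((h4 _ _ _ _ H H').2 c))
    have : ∀ m : ℕ, ∃ m' : ℕ, F (io m) (io m') := fun m => by
      obtain ⟨b, hb⟩ := h1 (io m) ⟨m, rfl⟩
      obtain ⟨m', rfl⟩ := (h2 _ _ hb).2.1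
      exact ⟨m', hb⟩
    choose f hF using this
    have hmono : StrictMono f := fun a b hab =>
      io_lt.1 ((h4 _ _ _ _ (hF a) (hF b)).1 (io_lt.2 hab))
    have e : f = Nat.nth (fun n => Apc h k0 k1 (io n)) := by
      refine (hmono.range_inj (Nat.nth_strictMono hinf)).1 ?_
      rw [Nat.range_nth_of_infinite hinf]
      ext m
      constructor
      · rintro ⟨a, rfl⟩; exact (h2 _ _ (hF a)).2
      · intro hm
        obtain ⟨a, ha⟩ := h3 _ hm
        obtain ⟨a, rfl⟩ := (h2 _ _ ha).1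
        exact ⟨a, io_inj.1 (hf _ _ _ (hF a) ha)⟩
    rw [← e]; exact hf _ _ _ h5 (hF n)
  · rintro rfl
    refine ⟨fun a b => ∃ m : ℕ, a = io m ∧ b = io (Nat.nth (fun n => Apc h k0 k1 (io n)) m),
      ?_, ?_, ?_, ?_, n, rfl, rfl⟩
    · rintro _ ⟨m, rfl⟩; exact ⟨_, m, rfl, rfl⟩
    · rintro _ _ ⟨m, rfl, rfl⟩; exact ⟨⟨m, rfl⟩, Nat.nth_mem_of_infinite hinf m⟩
    · intro b hb
      obtain ⟨m, rfl⟩ := hb.1
      have : m ∈ Set.range (Nat.nth (fun n => Apc h k0 k1 (io n))) := by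
        rw [Nat.range_nth_of_infinite hinf]; exact hb
      obtain ⟨a, ha⟩ := this
      exact ⟨io a, a, rfl, by rw [ha]⟩
    · rintro _ _ _ _ ⟨m, rfl, rfl⟩ ⟨m', rfl, rfl⟩
      rw [io_lt, io_lt, (Nat.nth_strictMono hinf).lt_iff_lt]

end Pool.Agent.Lib.MP_f9eb18_lc
end

-- part Pool.Agent.Lib.MP_f9eb18_lc.Psi
section

/-! Under `ψ_AC` a family of reals closed under second-order definability over `ω₁` (with an
injective `ω₁`-sequence of reals as a predicate) is the family of all reals. -/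

namespace Pool.Agent.Lib.MP_f9eb18_lc

open Ordinal

variable {h : O → Set ℕ} {K : Set (Set ℕ)}

/-- `(η, R)` is isomorphic to `(β, <)` -/
def Iso (R : Rel2) (η β : O) : Prop :=
  ∃ F : Rel2, (∀ x, x < η → ∃ y, y < β ∧ F x y) ∧ (∀ y, y < β → ∃ x, x < η ∧ F x y) ∧
    ∀ x y x' y', x < η → x' < η → y < β → y' < β → F x y → F x' y' → (R x x' ↔ y < y')

theorem SOD.iso (k i j : ℕ) : SOD h K fun u R => Iso (R k) (u i) (u j) := by
  unfold Iso
  repeat (first
    | with_reducible exact SOD.lt _ _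
    | with_reducible exact SOD.rel _ _ _
    | with_reducible apply SOD.and
    | with_reducible apply SOD.iff
    | with_reducible apply SOD.imp
    | with_reducible apply SOD.all
    | with_reducible apply SOD.ex
    | with_reducible apply SOD.exR)

theorem Iso.transfer {R R' : Rel2} (σ : O ≃ O) (hσ : ∀ x x', R x x' ↔ R' (σ x) (σ x')) {η β : O}
    (h1 : ∀ x < η, σ x < η) (h2 : ∀ x < η, σ.symm x < η) (H : Iso R η β) : Iso R' η β := by
  obtain ⟨F, a1, a2, a3⟩ := H
  refine ⟨fun z y => F (σ.symm z) y, fun z hz => a1 _ (h2 z hz), fun y hy => ?_,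
    fun z y z' y' hz hz' hy hy' H H' => ?_⟩
  · obtain ⟨x, hx, hF⟩ := a2 y hy
    exact ⟨σ x, h1 x hx, by beta_reduce; rwa [σ.symm_apply_apply]⟩
  · rw [← a3 _ _ _ _ (h2 z hz) (h2 z' hz') hy hy' H H', hσ, σ.apply_symm_apply,
      σ.apply_symm_apply]

theorem iso_iff {γ : Ordinal.{0}} (π : O ≃ γ.ToType) (η β : O) :
    Iso (fun x x' => π x < π x') η β ↔ Nonempty (↥(π '' Set.Iio η) ≃o ↥(Set.Iio β)) := by
  constructor
  · rintro ⟨F, a1, a2, a3⟩
    have hz : ∀ z : ↥(π '' Set.Iio η), π.symm z.1 < η := by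
      rintro ⟨_, x, hx, rfl⟩
      rw [π.symm_apply_apply]; exact hx
    choose f hf1 hf2 using fun z : ↥(π '' Set.Iio η) => a1 _ (hz z)
    have hm : StrictMono fun z => (⟨f z, hf1 z⟩ : Set.Iio β) := fun z z' hzz => by
      have := (a3 _ _ _ _ (hz z) (hz z') (hf1 z) (hf1 z') (hf2 z) (hf2 z')).1
        (by beta_reduce; rw [π.apply_symm_apply, π.apply_symm_apply]; exact hzz)
      exact this
    refine ⟨hm.orderIsoOfSurjective _ fun y => ?_⟩
    obtain ⟨x, hx, hF⟩ := a2 y.1 y.2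
    let z : ↥(π '' Set.Iio η) := ⟨π x, x, hx, rfl⟩
    have e : π.symm z.1 = x := π.symm_apply_apply x
    have hF' : F x (f z) := e ▸ hf2 z
    refine ⟨z, Subtype.ext (le_antisymm (not_lt.1 fun c => ?_) (not_lt.1 fun c => ?_))⟩
    · exact lt_irrefl _ ((a3 _ _ _ _ hx hx y.2 (hf1 z) hF hF').2 c)
    · exact lt_irrefl _ ((a3 _ _ _ _ hx hx (hf1 z) y.2 hF' hF).2 c)
  · rintro ⟨φ⟩
    refine ⟨fun x y => ∃ hx : x < η, (φ ⟨π x, x, hx, rfl⟩).1 = y, fun x hx =>
      ⟨_, (φ ⟨π x, x, hx, rfl⟩).2, hx, rfl⟩, fun y hy => ?_, ?_⟩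
    · obtain ⟨⟨_, x, hx, rfl⟩, e⟩ := φ.surjective ⟨y, hy⟩
      exact ⟨x, hx, hx, by rw [e]⟩
    · rintro x _ x' _ - - - - ⟨hx, rfl⟩ ⟨hx', rfl⟩
      rw [Subtype.coe_lt_coe, φ.lt_iff_lt]
      rfl

def TT (h : O → Set ℕ) (R : Rel2) (k0 η : O) : Prop := ∃ β, Sp h k0 β ∧ Iso R η β

theorem SOD.tt (k i j : ℕ) : SOD h K fun u R => TT h (R k) (u i) (u j) := by
  unfold TT
  repeat (first
    | with_reducible exact SOD.sp _ _
    | with_reducible exact SOD.iso _ _ _
    | with_reducible apply SOD.and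
    | with_reducible apply SOD.ex)

def Rho (h : O → Set ℕ) (R : Rel2) (k0 k1 x : O) : Prop :=
  ∃ y, En h k0 k1 x y ∧ IsStationary {a | Sp h y a ∧ TT h R k0 a}

theorem SOD.rho (k a b c : ℕ) : SOD h K fun u R => Rho h (R k) (u a) (u b) (u c) := by
  unfold Rho
  repeat (first
    | with_reducible exact SOD.sp _ _
    | with_reducible exact SOD.tt _ _ _
    | with_reducible exact SOD.en _ _ _ _
    | with_reducible apply SOD.and
    | with_reducible apply SOD.stat
    | with_reducible apply SOD.ex)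

theorem Rho.transfer {R R' : Rel2} (σ : O ≃ O) (hσ : ∀ x x', R x x' ↔ R' (σ x) (σ x'))
    (k0 k1 x : O) : Rho h R k0 k1 x ↔ Rho h R' k0 k1 x := by
  refine exists_congr fun y => and_congr_right fun _ => stat_congr
    ((isClub_closure σ).inter cof_O_ne (isClub_closure σ.symm)) fun η hη =>
    and_congr_right fun _ => exists_congr fun β => and_congr_right fun _ =>
    ⟨Iso.transfer σ hσ hη.1 hη.2, Iso.transfer σ.symm (fun x x' => ?_) hη.2 hη.1⟩
  rw [hσ, σ.apply_symm_apply, σ.apply_symm_apply]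

def WO (R : Rel2) : Prop :=
  (∀ x y, R x y ∨ x = y ∨ R y x) ∧ (∀ x y z, R x y → R y z → R x z) ∧
    ∀ X : Rel2, (∃ x, X x x) → ∃ x, X x x ∧ ∀ y, X y y → ¬ R y x

theorem SOD.wo (k : ℕ) : SOD h K fun _ R => WO (R k) := by
  unfold WO
  repeat (first
    | with_reducible exact SOD.eq _ _
    | with_reducible exact SOD.rel _ _ _
    | with_reducible apply SOD.and
    | with_reducible apply SOD.or
    | with_reducible apply SOD.not
    | with_reducible apply SOD.imp
    | with_reducible apply SOD.all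
    | with_reducible apply SOD.allR
    | with_reducible apply SOD.ex)

theorem WO.isWellOrder {R : Rel2} (H : WO R) : IsWellOrder O R where
  trichotomous := fun x y h1 h2 => by
    rcases H.1 x y with h | h | h
    · exact absurd h h1
    · exact h
    · exact absurd h h2
  wf := WellFounded.wellFounded_iff_has_min.2 fun s hs => H.2.2 (fun x _ => x ∈ s) hs

theorem wo_of_equiv {γ : Ordinal.{0}} (π : O ≃ γ.ToType) : WO fun x x' => π x < π x' := by
  refine ⟨fun x y => ?_, fun _ _ _ => lt_trans, fun X hX => ?_⟩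
  · rcases lt_trichotomy (π x) (π y) with h | h | h
    · exact Or.inl h
    · exact Or.inr (Or.inl (π.injective h))
    · exact Or.inr (Or.inr h)
  · exact (InvImage.wf π wellFounded_lt).has_min {x | X x x} hX

def Bad (h : O → Set ℕ) (K : Set (Set ℕ)) (R : Rel2) (k0 k1 : O) : Prop :=
  WO R ∧ ¬ {n | Rho h R k0 k1 (io n)} ∈ K

theorem SOD.bad (k a b : ℕ) : SOD h K fun u R => Bad h K (R k) (u a) (u b) :=
  (SOD.wo k).and (SOD.inK' (fun u R x => Rho h (R k) (u a) (u b) x) (SOD.rho _ _ _ _)).not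

def Emb (R R' : Rel2) : Prop :=
  ∃ F : Rel2, (∀ x, ∃ y, F x y) ∧ ∀ x y x' y', F x y → F x' y' → R x x' → R' y y'

theorem SOD.emb (k l : ℕ) : SOD h K fun _ R => Emb (R k) (R l) := by
  unfold Emb
  repeat (first
    | with_reducible exact SOD.rel _ _ _
    | with_reducible apply SOD.and
    | with_reducible apply SOD.imp
    | with_reducible apply SOD.all
    | with_reducible apply SOD.ex
    | with_reducible apply SOD.exR)

theorem emb_iff {R R' : Rel2} [IsWellOrder O R] [IsWellOrder O R'] :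
    Emb R R' ↔ Ordinal.type R ≤ Ordinal.type R' := by
  rw [Ordinal.type_le_iff']
  constructor
  · rintro ⟨F, h1, h2⟩
    choose f hf using h1
    exact ⟨RelEmbedding.ofMonotone f fun a b hab => h2 _ _ _ _ (hf a) (hf b) hab⟩
  · rintro ⟨f⟩
    refine ⟨fun x y => f x = y, fun x => ⟨_, rfl⟩, ?_⟩
    rintro x _ x' _ rfl rfl H
    exact f.map_rel_iff.2 H

def MinBad (h : O → Set ℕ) (K : Set (Set ℕ)) (R : Rel2) (k0 k1 : O) : Prop :=
  Bad h K R k0 k1 ∧ ∀ R', Bad h K R' k0 k1 → Emb R R'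

theorem SOD.minBad (k a b : ℕ) : SOD h K fun u R => MinBad h K (R k) (u a) (u b) := by
  unfold MinBad
  repeat (first
    | with_reducible exact SOD.bad _ _ _
    | with_reducible exact SOD.emb _ _
    | with_reducible apply SOD.and
    | with_reducible apply SOD.imp
    | with_reducible apply SOD.allR)

theorem not_bad (hdef : ∀ P : (ℕ → O) → Prop, SOD h K (fun u _ => P u) →
    ∀ u, {n | P (cons (io n) u)} ∈ K) (k0 k1 : O) (R : Rel2) : ¬ Bad h K R k0 k1 := by
  intro hR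
  let s : Set Ordinal.{0} := {o | ∃ (R : Rel2) (H : Bad h K R k0 k1),
    @Ordinal.type O R H.1.isWellOrder = o}
  obtain ⟨_, ⟨R0, H0, rfl⟩, hmin⟩ := wellFounded_lt.has_min s ⟨_, R, hR, rfl⟩
  have hM0 : MinBad h K R0 k0 k1 := ⟨H0, fun R' H' =>
    (@emb_iff R0 R' H0.1.isWellOrder H'.1.isWellOrder).2 (not_lt.1 (hmin _ ⟨R', H', rfl⟩))⟩
  have hP : SOD h K fun u _ => ∃ R, MinBad h K R (u 1) (u 2) ∧ Rho h R (u 1) (u 2) (u 0) :=
    SOD.exR ((SOD.minBad _ _ _).and (SOD.rho _ _ _ _))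
  have := hdef _ hP (cons k0 fun _ => k1)
  refine H0.2 ?_
  have e : {n | Rho h R0 k0 k1 (io n)} =
      {n | ∃ R, MinBad h K R k0 k1 ∧ Rho h R k0 k1 (io n)} := by
    ext n
    refine ⟨fun H => ⟨R0, hM0, H⟩, fun ⟨R1, hM1, H⟩ => ?_⟩
    have i0 := H0.1.isWellOrder
    have i1 := hM1.1.1.isWellOrder
    obtain ⟨σ⟩ := Ordinal.type_eq.1 (le_antisymm (emb_iff.1 (hM0.2 R1 hM1.1))
      (emb_iff.1 (hM1.2 R0 H0)))
    exact (Rho.transfer σ.toEquiv (fun x x' => σ.map_rel_iff.symm) k0 k1 _).2 H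
  rw [e]; exact this

theorem all_in (hinj : Function.Injective h) (hdef : ∀ P : (ℕ → O) → Prop,
    SOD h K (fun u _ => P u) → ∀ u, {n | P (cons (io n) u)} ∈ K) (hψ : PsiAC) (r : Set ℕ) :
    r ∈ K := by
  have hinf := infinite_stat hinj
  obtain ⟨n0, hn0⟩ := hinf.nonempty
  obtain ⟨n1, hn1, hlt⟩ := hinf.exists_gt n0
  have hinf' : {n : ℕ | Apc h (io n0) (io n1) (io n)}.Infinite := by
    refine (hinf.sdiff (Set.toFinite {n0, n1})).mono fun n hn => ⟨⟨n, rfl⟩, hn.1, ?_, ?_⟩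
    · rw [io_inj]; rintro rfl; exact hn.2 (by simp)
    · rw [io_inj]; rintro rfl; exact hn.2 (by simp)
  let a : ℕ → ℕ := Nat.nth fun n => Apc h (io n0) (io n1) (io n)
  have ha : ∀ n, Apc h (io n0) (io n1) (io (a n)) := Nat.nth_mem_of_infinite hinf'
  let S : Set O := {x | Sp h (io n0) x ∨ ∃ n ∈ r, Sp h (io (a n)) x}
  have h01 : ∀ x, Sp h (io n1) x → ¬ Sp h (io n0) x := fun x h1 h0 =>
    hlt.ne (io_inj.1 (Sp_unique h0 h1))
  obtain ⟨γ, π, C, hC, hE⟩ := hψ S {x | Sp h (io n0) x} (IsStationary.mono hn0 fun x hx => Or.inl hx)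
    (IsStationary.mono hn1 fun x hx => by
      rintro (H | ⟨n, -, H⟩)
      · exact h01 x hx H
      · exact (ha n).2.2.2 (Sp_unique H hx)) hn0 (IsStationary.mono hn1 fun x hx => h01 x hx)
  have hT : ∀ η ∈ C, TT h (fun x x' => π x < π x') (io n0) η ↔ η ∈ S := fun η hη => by
    have := Set.ext_iff.1 hE η
    simp only [Set.mem_inter_iff, hη, and_true] at this
    rw [← this]
    exact exists_congr fun β => and_congr_right fun _ => iso_iff π η β
  have e : r = {n | Rho h (fun x x' => π x < π x') (io n0) (io n1) (io n)} := by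
    ext n
    simp only [Set.mem_ofPred_eq, Rho, En_iff hinf', exists_eq_left]
    refine Iff.trans ?_ (stat_congr (s := {x | Sp h (io (a n)) x ∧ x ∈ S}) hC fun η hη =>
      and_congr_right fun _ => (hT η hη).symm)
    constructor
    · intro hn
      exact (ha n).2.1.mono fun x hx => ⟨hx, Or.inr ⟨n, hn, hx⟩⟩
    · intro H
      obtain ⟨x, hx, H | ⟨m, hm, H⟩⟩ := H.nonempty
      · exact ((ha n).2.2.1 (Sp_unique hx H)).elim
      · rwa [Nat.nth_injective hinf' (io_inj.1 (Sp_unique hx H))]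
  by_contra hr
  exact not_bad hdef (io n0) (io n1) _ ⟨wo_of_equiv π, e ▸ hr⟩

end Pool.Agent.Lib.MP_f9eb18_lc
end

-- part Pool.Agent.Lib.MP_f9eb18_lc.Calc
section

/-! A calculus of `L^2_ω`-definable properties over a transitive set. -/

namespace Pool.Agent.Lib.MP_f9eb18_lc

open Ordinal

/-- lift a renaming under a binder -/
def up (σ : ℕ → ℕ) : ℕ → ℕ
  | 0 => 0
  | n + 1 => σ n + 1

def Fm.ren : Fm → (ℕ → ℕ) → (ℕ → ℕ) → Fm
  | .mem i j, σ, _ => .mem (σ i) (σ j)
  | .eq i j, σ, _ => .eq (σ i) (σ j)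
  | .tr i, σ, _ => .tr (σ i)
  | .memS i k, σ, τ => .memS (σ i) (τ k)
  | .neg φ, σ, τ => .neg (φ.ren σ τ)
  | .and φ ψ, σ, τ => .and (φ.ren σ τ) (ψ.ren σ τ)
  | .ex φ, σ, τ => .ex (φ.ren (up σ) τ)
  | .exS φ, σ, τ => .exS (φ.ren σ (up τ))

theorem cons_up {α : Type*} (a : α) (v : ℕ → α) (σ : ℕ → ℕ) :
    (fun n => cons a v (up σ n)) = cons a fun n => v (σ n) := by
  funext n; cases n <;> rfl

theorem Sat_ren (M T : V) (φ : Fm) : ∀ (σ τ : ℕ → ℕ) (v : ℕ → V) (X : ℕ → Set V),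
    Sat M T (φ.ren σ τ) v X ↔ Sat M T φ (fun n => v (σ n)) (fun n => X (τ n)) := by
  induction φ with
  | mem i j => intros; rfl
  | eq i j => intros; rfl
  | tr i => intros; rfl
  | memS i k => intros; rfl
  | neg φ ih => intro σ τ v X; simp only [Fm.ren, Sat, ih]
  | and φ ψ ih ih' => intro σ τ v X; simp only [Fm.ren, Sat, ih, ih']
  | ex φ ih => intro σ τ v X; simp only [Fm.ren, Sat, ih, cons_up]
  | exS φ ih => intro σ τ v X; simp only [Fm.ren, Sat, ih, cons_up]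

/-- a countable subset of `M` -/
def Cnt (M : V) (S : Set V) : Prop := S.Countable ∧ ∀ x ∈ S, x ∈ M

theorem Cnt.empty (M : V) : Cnt M ∅ := ⟨Set.countable_empty, fun _ h => h.elim⟩

/-- definable properties of assignments -/
def Def (M T : V) (P : (ℕ → V) → (ℕ → Set V) → Prop) : Prop :=
  ∃ φ : Fm, ∀ v X, (∀ i, v i ∈ M) → (∀ k, Cnt M (X k)) → (Sat M T φ v X ↔ P v X)

variable {M T : V}

theorem Def.congr {P Q : (ℕ → V) → (ℕ → Set V) → Prop} (h : Def M T P)
    (e : ∀ v X, (∀ i, v i ∈ M) → (∀ k, Cnt M (X k)) → (P v X ↔ Q v X)) : Def M T Q :=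
  let ⟨φ, hφ⟩ := h; ⟨φ, fun v X hv hX => (hφ v X hv hX).trans (e v X hv hX)⟩

theorem Def.mem (i j : ℕ) : Def M T fun v _ => v i ∈ v j := ⟨.mem i j, fun _ _ _ _ => Iff.rfl⟩
theorem Def.eq (i j : ℕ) : Def M T fun v _ => v i = v j := ⟨.eq i j, fun _ _ _ _ => Iff.rfl⟩
theorem Def.memS (i k : ℕ) : Def M T fun v X => v i ∈ X k :=
  ⟨.memS i k, fun _ _ _ _ => Iff.rfl⟩

theorem Def.not {P : (ℕ → V) → (ℕ → Set V) → Prop} (h : Def M T P) :
    Def M T fun v X => ¬ P v X :=
  let ⟨φ, hφ⟩ := h; ⟨.neg φ, fun v X hv hX => not_congr (hφ v X hv hX)⟩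

theorem Def.and {P Q : (ℕ → V) → (ℕ → Set V) → Prop} (h : Def M T P) (h' : Def M T Q) :
    Def M T fun v X => P v X ∧ Q v X :=
  let ⟨φ, hφ⟩ := h; let ⟨ψ, hψ⟩ := h'
  ⟨.and φ ψ, fun v X hv hX => and_congr (hφ v X hv hX) (hψ v X hv hX)⟩

theorem Def.or {P Q : (ℕ → V) → (ℕ → Set V) → Prop} (h : Def M T P) (h' : Def M T Q) :
    Def M T fun v X => P v X ∨ Q v X :=
  (h.not.and h'.not).not.congr fun _ _ _ _ => by tauto

theorem Def.imp {P Q : (ℕ → V) → (ℕ → Set V) → Prop} (h : Def M T P) (h' : Def M T Q) :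
    Def M T fun v X => P v X → Q v X :=
  (h.and h'.not).not.congr fun _ _ _ _ => by tauto

theorem Def.iff {P Q : (ℕ → V) → (ℕ → Set V) → Prop} (h : Def M T P) (h' : Def M T Q) :
    Def M T fun v X => P v X ↔ Q v X :=
  ((h.imp h').and (h'.imp h)).congr fun _ _ _ _ => by tauto

theorem Def.ren {P : (ℕ → V) → (ℕ → Set V) → Prop} (h : Def M T P) (σ τ : ℕ → ℕ) :
    Def M T fun v X => P (fun n => v (σ n)) (fun n => X (τ n)) :=
  let ⟨φ, hφ⟩ := h
  ⟨φ.ren σ τ, fun v X hv hX => (Sat_ren M T φ σ τ v X).trans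
    (hφ _ _ (fun _ => hv _) fun _ => hX _)⟩

theorem Def.ex' {P : (ℕ → V) → (ℕ → Set V) → Prop} (h : Def M T P) :
    Def M T fun v X => ∃ a ∈ M, P (cons a v) X :=
  let ⟨φ, hφ⟩ := h
  ⟨.ex φ, fun v X hv hX => exists_congr fun a => and_congr_right fun ha =>
    hφ _ _ (cons_all ha hv) hX⟩

theorem Def.exS' {P : (ℕ → V) → (ℕ → Set V) → Prop} (h : Def M T P) :
    Def M T fun v X => ∃ S, Cnt M S ∧ P v (cons S X) :=
  let ⟨φ, hφ⟩ := h
  ⟨.exS φ, fun v X hv hX => exists_congr fun S => by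
    rw [← and_assoc]
    exact and_congr_right fun hS => hφ _ _ hv (cons_all hS hX)⟩

theorem Def.ex {Q : (ℕ → V) → (ℕ → Set V) → V → Prop}
    (h : Def M T fun v X => Q (fun n => v (n + 1)) X (v 0)) :
    Def M T fun v X => ∃ a, a ∈ M ∧ Q v X a := h.ex'

theorem Def.bex (hM : M.IsTransitive) {Q : (ℕ → V) → (ℕ → Set V) → V → Prop} (i : ℕ)
    (h : Def M T fun v X => Q (fun n => v (n + 1)) X (v 0)) :
    Def M T fun v X => ∃ a, a ∈ v i ∧ Q v X a :=
  ((Def.mem 0 (i + 1)).and h).ex'.congr fun v _ hv _ => exists_congr fun _ =>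
    ⟨fun h => h.2, fun h => ⟨hM _ (hv i) h.1, h⟩⟩

theorem Def.ball (hM : M.IsTransitive) {Q : (ℕ → V) → (ℕ → Set V) → V → Prop} (i : ℕ)
    (h : Def M T fun v X => Q (fun n => v (n + 1)) X (v 0)) :
    Def M T fun v X => ∀ a, a ∈ v i → Q v X a :=
  (Def.bex hM (Q := fun v X a => ¬ Q v X a) i h.not).not.congr fun _ _ _ _ => by
    push Not; rfl

theorem Def.eqUpair (hM : M.IsTransitive) (k i j : ℕ) :
    Def M T fun v _ => v k = {v i, v j} := by
  have : Def M T fun v _ => v i ∈ v k ∧ v j ∈ v k ∧ ∀ w, w ∈ v k → (w = v i ∨ w = v j) := by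
    repeat (first
      | with_reducible exact Def.mem _ _
      | with_reducible exact Def.eq _ _
      | with_reducible apply Def.and
      | with_reducible apply Def.or
      | with_reducible apply Def.ball hM)
  refine this.congr fun v _ _ _ => ⟨fun ⟨h1, h2, h3⟩ => ?_, fun h => ?_⟩
  · ext w
    rw [ZFSet.mem_pair]
    exact ⟨h3 w, by rintro (rfl | rfl) <;> assumption⟩
  · rw [h]; simp

theorem Def.eqPair (hM : M.IsTransitive) (k i j : ℕ) :
    Def M T fun v _ => v k = ZFSet.pair (v i) (v j) := by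
  have : Def M T fun v _ => ∃ a, a ∈ v k ∧ ∃ b, b ∈ v k ∧ a = {v i, v i} ∧ b = {v i, v j} ∧
      v k = {a, b} := by
    repeat (first
      | with_reducible exact Def.eqUpair hM _ _ _
      | with_reducible apply Def.and
      | with_reducible apply Def.bex hM)
  refine this.congr fun v _ _ _ => ⟨?_, fun h => ?_⟩
  · rintro ⟨a, -, b, -, rfl, rfl, h⟩
    rw [h, ZFSet.pair_eq_singleton]; rfl
  · refine ⟨{v i, v i}, ?_, {v i, v j}, ?_, rfl, rfl, ?_⟩
    · rw [h, ZFSet.pair_eq_singleton]; unfold ZFSet.pair; simp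
    · rw [h]; unfold ZFSet.pair; simp
    · rw [h, ZFSet.pair_eq_singleton]; rfl

theorem Def.pairMem (hM : M.IsTransitive) (i j k : ℕ) :
    Def M T fun v _ => ZFSet.pair (v i) (v j) ∈ v k := by
  have : Def M T fun v _ => ∃ p, p ∈ v k ∧ p = ZFSet.pair (v i) (v j) := by
    repeat (first
      | with_reducible exact Def.eqPair hM _ _ _
      | with_reducible apply Def.bex hM)
  exact this.congr fun v _ _ _ => by simp

theorem Def.eqInter (hM : M.IsTransitive) (k i j : ℕ) :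
    Def M T fun v _ => v k = v i ∩ v j := by
  have : Def M T fun v _ => (∀ z, z ∈ v k → z ∈ v i ∧ z ∈ v j) ∧
      ∀ z, z ∈ v i → z ∈ v j → z ∈ v k := by
    repeat (first
      | with_reducible exact Def.mem _ _
      | with_reducible apply Def.and
      | with_reducible apply Def.ball hM
      | with_reducible apply Def.imp)
  refine this.congr fun v _ _ _ => ⟨fun ⟨h1, h2⟩ => ?_, fun h => ?_⟩
  · ext z; rw [ZFSet.mem_inter]; exact ⟨h1 z, fun h => h2 z h.1 h.2⟩
  · rw [h]; simp only [ZFSet.mem_inter]; exact ⟨fun _ h => h, fun _ h h' => ⟨h, h'⟩⟩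

/-- `s` is the value of `f` at `x`, cut at `n`. -/
def Cut (M f n x s : V) : Prop := ∃ y, y ∈ M ∧ ZFSet.pair x y ∈ f ∧ s = y ∩ n

theorem Def.cut (hM : M.IsTransitive) (a b c d : ℕ) :
    Def M T fun v _ => Cut M (v a) (v b) (v c) (v d) := by
  unfold Cut
  repeat (first
    | with_reducible exact Def.pairMem hM _ _ _
    | with_reducible exact Def.eqInter hM _ _ _
    | with_reducible apply Def.and
    | with_reducible apply Def.ex)

/-- The relation coded by the countable set `Z`. -/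
def CodeZ (M f w : V) (Z : Set V) (x y : V) : Prop :=
  ∀ m, m ∈ w → ∃ n, n ∈ w ∧ m ∈ n ∧ ∃ s, s ∈ M ∧ ∃ t, t ∈ M ∧ Cut M f n x s ∧ Cut M f n y t ∧
    ∃ q, q ∈ M ∧ q = ZFSet.pair s t ∧ ∃ p, p ∈ M ∧ p = ZFSet.pair n q ∧ p ∈ Z

theorem Def.codeZ (hM : M.IsTransitive) (a b k c d : ℕ) :
    Def M T fun v X => CodeZ M (v a) (v b) (X k) (v c) (v d) := by
  unfold CodeZ
  repeat (first
    | with_reducible exact Def.mem _ _
    | with_reducible exact Def.memS _ _
    | with_reducible exact Def.cut hM _ _ _ _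
    | with_reducible exact Def.eqPair hM _ _ _
    | with_reducible apply Def.and
    | with_reducible apply Def.ball hM
    | with_reducible apply Def.bex hM
    | with_reducible apply Def.ex)

theorem so_iter (φ : Fm) (k : ℕ) : (Fm.exS^[k] φ).so = φ.so - k := by
  induction k with
  | zero => rfl
  | succ k ih => rw [Function.iterate_succ_apply', Fm.so, ih]; omega

theorem Sat_iter (φ : Fm) (v : ℕ → V) (p : Prop)
    (h : ∀ X, (∀ k, Cnt M (X k)) → (Sat M T φ v X ↔ p)) (k : ℕ) :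
    ∀ X, (∀ k, Cnt M (X k)) → (Sat M T (Fm.exS^[k] φ) v X ↔ p) := by
  induction k with
  | zero => exact h
  | succ k ih =>
    intro X hX
    rw [Function.iterate_succ_apply', Sat]
    constructor
    · rintro ⟨S, h1, h2, h3⟩
      exact (ih _ (cons_all (p := Cnt M) ⟨h1, h2⟩ hX)).1 h3
    · intro hp
      exact ⟨∅, Set.countable_empty, fun _ h => h.elim,
        (ih _ (cons_all (Cnt.empty M) hX)).2 hp⟩

/-- Extraction of definable sets. -/
theorem C2_of_def {ν : Ordinal.{0}} {P : (ℕ → V) → (ℕ → Set V) → Prop}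
    (h : Def (J ν) (Tr ν) P) (v : ℕ → V) (hv : ∀ i, v i ∈ J ν) (D : V)
    (hD : ∀ a ∈ D, a ∈ J ν)
    (hP : ∀ a ∈ J ν, ∀ X, (∀ k, Cnt (J ν) (X k)) → (P (cons a v) X ↔ a ∈ D)) : C2 D := by
  obtain ⟨φ, hφ⟩ := h
  have := C2_sep ν (Fm.exS^[φ.so] φ) (by rw [so_iter]; omega) v hv
  have e : D = ZFSet.sep (fun a => Sat (J ν) (Tr ν) (Fm.exS^[φ.so] φ) (cons a v) (fun _ => ∅))
      (J ν) := by
    ext a
    rw [ZFSet.mem_sep]
    have key : a ∈ J ν → (Sat (J ν) (Tr ν) (Fm.exS^[φ.so] φ) (cons a v) (fun _ => ∅) ↔ a ∈ D) :=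
      fun ha => Sat_iter φ _ _ (fun X hX => (hφ _ X (cons_all ha hv) hX).trans (hP a ha X hX)) _ _
        fun _ => Cnt.empty _
    exact ⟨fun h => ⟨hD a h, (key (hD a h)).2 h⟩, fun h => (key h.1).1 h.2⟩
  rw [e]; exact this

end Pool.Agent.Lib.MP_f9eb18_lc
end
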