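import Pool.Agent.Lib.MP_f9eb18_lc.Calc

-- part Pool.Agent.Lib.MP_f9eb18_lc.Main
section

/-! Translation of second-order logic over `ω₁` into `L^2_ω`, and the main theorem. -/

namespace Pool.Agent.Lib.MP_f9eb18_lc

open Ordinal Cardinal

/-- the von Neumann ordinal of an element of `O` -/
noncomputable def eZ (a : O) : V := (ord a).toZFSet

theorem mem_omega1Z {x : V} : x ∈ omega1Z ↔ ∃ a, eZ a = x := by
  unfold omega1Z eZ
  rw [Ordinal.mem_toZFSet_iff]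
  constructor
  · rintro ⟨o, ho, rfl⟩
    obtain ⟨a, rfl⟩ := exists_ord ho
    exact ⟨a, rfl⟩
  · rintro ⟨a, rfl⟩; exact ⟨_, ord_lt a, rfl⟩

theorem eZ_mem_eZ {a b : O} : eZ a ∈ eZ b ↔ a < b := by
  unfold eZ; rw [Ordinal.toZFSet_mem_toZFSet_iff, ord_lt_ord]

theorem eZ_inj {a b : O} : eZ a = eZ b ↔ a = b := by
  unfold eZ; rw [Ordinal.toZFSet_injective.eq_iff, ord_inj]

theorem eZ_io (n : ℕ) : eZ (io n) = natZ n := by unfold eZ natZ; rw [ord_io]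

theorem mem_omegaZ {x : V} : x ∈ omegaZ ↔ ∃ n, natZ n = x := by
  unfold omegaZ natZ
  rw [Ordinal.mem_toZFSet_iff]
  constructor
  · rintro ⟨o, ho, rfl⟩
    obtain ⟨n, rfl⟩ := Ordinal.lt_omega0.1 ho
    exact ⟨n, rfl⟩
  · rintro ⟨n, rfl⟩; exact ⟨_, Ordinal.natCast_lt_omega0 n, rfl⟩

theorem natZ_mem_natZ {m n : ℕ} : natZ m ∈ natZ n ↔ m < n := by
  unfold natZ; rw [Ordinal.toZFSet_mem_toZFSet_iff, Nat.cast_lt]

theorem eZ_mem_omegaZ {a : O} : eZ a ∈ omegaZ ↔ IsNat a := by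
  rw [mem_omegaZ]
  exact exists_congr fun n => by rw [← eZ_io, eZ_inj, eq_comm]

/-- a set of natural numbers as a subset of `ω` -/
noncomputable def realZ (r : Set ℕ) : V := ZFSet.sep (fun x => ∃ n ∈ r, x = natZ n) omegaZ

theorem realZ_subset (r : Set ℕ) : realZ r ⊆ omegaZ := ZFSet.sep_subset

theorem natZ_mem_realZ {r : Set ℕ} {n : ℕ} : natZ n ∈ realZ r ↔ n ∈ r := by
  unfold realZ
  rw [ZFSet.mem_sep]
  exact ⟨fun ⟨_, m, hm, e⟩ => natZ_inj.1 e ▸ hm, fun h => ⟨mem_omegaZ.2 ⟨n, rfl⟩, n, h, rfl⟩⟩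

theorem ext_omega {x y : V} (hx : x ⊆ omegaZ) (hy : y ⊆ omegaZ)
    (h : ∀ n, natZ n ∈ x ↔ natZ n ∈ y) : x = y := by
  ext z
  constructor
  · intro hz
    obtain ⟨n, rfl⟩ := mem_omegaZ.1 (hx hz)
    exact (h n).1 hz
  · intro hz
    obtain ⟨n, rfl⟩ := mem_omegaZ.1 (hy hz)
    exact (h n).2 hz

theorem realZ_inj {r s : Set ℕ} (h : realZ r = realZ s) : r = s :=
  Set.ext fun n => by rw [← natZ_mem_realZ, h, natZ_mem_realZ]

theorem exists_realZ {x : V} (hx : x ⊆ omegaZ) : ∃ r, realZ r = x :=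
  ⟨{n | natZ n ∈ x}, ext_omega (realZ_subset _) hx fun _ => natZ_mem_realZ⟩

/-- The data used in the translation. -/
structure Ctx (f : V) (h : O → Set ℕ) (ν : Ordinal.{0}) : Prop where
  val : ∀ a y, ZFSet.pair (eZ a) y ∈ f ↔ y = realZ (h a)
  inj : Function.Injective h
  fM : f ∈ J (ν + 1)
  wM : omegaZ ∈ J (ν + 1)
  WM : omega1Z ∈ J (ν + 1)
  KM : ∀ r, C2 (realZ r) → realZ r ∈ J (ν + 1)

theorem exists_ctx (H : HasOmega1Seq) : ∃ f h ν, Ctx f h ν := by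
  obtain ⟨f, hf, ⟨h1, h2⟩, h3⟩ := H
  have : ∀ a : O, ∃ r, ∀ y, ZFSet.pair (eZ a) y ∈ f ↔ y = realZ r := fun a => by
    obtain ⟨w, hw, hu⟩ := h2 (eZ a) (mem_omega1Z.2 ⟨a, rfl⟩)
    obtain ⟨r, rfl⟩ := exists_realZ (ZFSet.mem_powerset.1 (ZFSet.pair_mem_prod.1 (h1 hw)).2)
    exact ⟨r, fun y => ⟨hu y, fun e => e ▸ hw⟩⟩
  choose h hh using this
  obtain ⟨ν, -, hν⟩ := exists_level (ι := {r // C2 (realZ r)} ⊕ ℕ)
    (Sum.elim (fun r => realZ r.1) (cons f (cons omegaZ fun _ => omega1Z))) (by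
      rintro (r | n)
      · exact r.2
      · exact cons_all hf (cons_all (C2_ord _) fun _ => C2_ord _) n) 0
  refine ⟨f, h, ν, hh, fun a b e => eZ_inj.1 (h3 _ _ _ ((hh a _).2 rfl) ((hh b _).2 (by rw [e]))),
    mem_J_succ (hν (.inr 0)), mem_J_succ (hν (.inr 1)), mem_J_succ (hν (.inr 2)),
    fun r hr => mem_J_succ (hν (.inl ⟨r, hr⟩))⟩

variable {f : V} {h : O → Set ℕ} {ν : Ordinal.{0}}

theorem Ctx.eM (c : Ctx f h ν) (a : O) : eZ a ∈ J (ν + 1) :=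
  J_transitive _ _ c.WM (mem_omega1Z.2 ⟨a, rfl⟩)

theorem Ctx.nM (c : Ctx f h ν) (n : ℕ) : natZ n ∈ J (ν + 1) := eZ_io n ▸ c.eM _

theorem Ctx.hM (c : Ctx f h ν) (a : O) : realZ (h a) ∈ J (ν + 1) :=
  c.KM _ (C2.trans (x := {eZ a, realZ (h a)}) (C2.trans (C2.trans ⟨_, c.fM⟩ ((c.val a _).2 rfl))
    (by unfold ZFSet.pair; simp)) (by simp))

theorem Ctx.cut_iff (c : Ctx f h ν) (n : V) (a : O) (s : V) :
    Cut (J (ν + 1)) f n (eZ a) s ↔ s = realZ (h a) ∩ n := by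
  unfold Cut
  simp only [c.val]
  constructor
  · rintro ⟨_, -, rfl, e⟩; exact e
  · intro e; exact ⟨_, c.hM a, rfl, e⟩

/-- the `n`-th point of the almost disjoint set attached to `(a, b)` -/
noncomputable def cZ (h : O → Set ℕ) (a b : O) (n : ℕ) : V :=
  ZFSet.pair (natZ n) (ZFSet.pair (realZ (h a) ∩ natZ n) (realZ (h b) ∩ natZ n))

theorem Ctx.cM (c : Ctx f h ν) (a b : O) (n : ℕ) : cZ h a b n ∈ J (ν + 1) :=
  pair_mem_J (c.nM n) (pair_mem_J (inter_mem_J (c.hM a) (c.nM n)) (inter_mem_J (c.hM b) (c.nM n)))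

theorem Ctx.code_iff (c : Ctx f h ν) (Z : Set V) (a b : O) :
    CodeZ (J (ν + 1)) f omegaZ Z (eZ a) (eZ b) ↔ ∀ m : ℕ, ∃ n, m < n ∧ cZ h a b n ∈ Z := by
  unfold CodeZ
  simp only [c.cut_iff]
  constructor
  · intro H m
    obtain ⟨n, hn, hmn, _, -, _, -, rfl, rfl, _, -, rfl, _, -, rfl, hp⟩ :=
      H (natZ m) (mem_omegaZ.2 ⟨m, rfl⟩)
    obtain ⟨n, rfl⟩ := mem_omegaZ.1 hn
    exact ⟨n, natZ_mem_natZ.1 hmn, hp⟩
  · intro H m hm
    obtain ⟨m, rfl⟩ := mem_omegaZ.1 hm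
    obtain ⟨n, hmn, hp⟩ := H m
    exact ⟨natZ n, mem_omegaZ.2 ⟨n, rfl⟩, natZ_mem_natZ.2 hmn, _, inter_mem_J (c.hM a) (c.nM n), _,
      inter_mem_J (c.hM b) (c.nM n), rfl, rfl, _,
      pair_mem_J (inter_mem_J (c.hM a) (c.nM n)) (inter_mem_J (c.hM b) (c.nM n)), rfl, _,
      c.cM a b n, rfl, hp⟩

open Classical in
/-- initial part of a real -/
noncomputable def cutF (r : Set ℕ) (n : ℕ) : Finset ℕ := (Finset.range n).filter (· ∈ r)

theorem solovay_fin (hMA : MA1) (hinj : Function.Injective h) (X : Set (O × O)) :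
    ∃ Z : Set (ℕ × (Finset ℕ × Finset ℕ)), ∀ i, i ∈ X ↔
      ∀ m, ∃ n, m < n ∧ (n, (cutF (h i.1) n, cutF (h i.2) n)) ∈ Z := by
  obtain ⟨e, he⟩ := exists_surj_O
  have hd : ∀ r s : Set ℕ, r ≠ s → ∃ N, ∀ n ≥ N, cutF r n ≠ cutF s n := fun r s hrs => by
    obtain ⟨k, hk⟩ : ∃ k, ¬ (k ∈ r ↔ k ∈ s) := not_forall.1 fun H => hrs (Set.ext H)
    refine ⟨k + 1, fun n hn e => hk ?_⟩
    have := Finset.ext_iff.1 e k
    simpa [cutF, show k < n from hn] using this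
  refine solovay hMA e he (fun i n => (cutF (h i.1) n, cutF (h i.2) n)) (fun i j hij => ?_) X
  by_cases h1 : i.1 = j.1
  · obtain ⟨N, hN⟩ := hd (h i.2) (h j.2) fun H => hij (Prod.ext h1 (hinj H))
    exact ⟨N, fun n hn e => hN n hn (Prod.mk.inj e).2⟩
  · obtain ⟨N, hN⟩ := hd (h i.1) (h j.1) fun H => h1 (hinj H)
    exact ⟨N, fun n hn e => hN n hn (Prod.mk.inj e).1⟩

theorem solovay_h (hMA : MA1) (hinj : Function.Injective h) (X : Set (O × O)) :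
    ∃ Z : Set (ℕ × (Set ℕ × Set ℕ)), Z.Countable ∧ ∀ i, i ∈ X ↔
      ∀ m, ∃ n, m < n ∧ (n, (h i.1 ∩ Set.Iio n, h i.2 ∩ Set.Iio n)) ∈ Z := by
  have hc : ∀ r n, (cutF r n : Set ℕ) = r ∩ Set.Iio n := fun r n => by
    ext k; simp [cutF, and_comm]
  obtain ⟨Z, hZ⟩ := solovay_fin hMA hinj X
  let g : ℕ × (Finset ℕ × Finset ℕ) → ℕ × (Set ℕ × Set ℕ) := fun x => (x.1, (x.2.1, x.2.2))
  have hg : Function.Injective g := by
    rintro ⟨a, b, c⟩ ⟨a', b', c'⟩ e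
    simp only [g, Prod.mk.injEq, Finset.coe_inj] at e
    rw [e.1, e.2.1, e.2.2]
  refine ⟨g '' Z, (Set.to_countable Z).image g, fun i => (hZ i).trans
    (forall_congr' fun m => exists_congr fun n => and_congr_right fun _ => ?_)⟩
  rw [← hg.mem_set_image, ← hc, ← hc]

theorem not_inj_reals (hMA : MA1) (hinj : Function.Injective h) (j : Set ℕ → O) :
    ¬ Function.Injective j := by
  intro hj
  choose Z hZ using solovay_fin hMA hinj
  have hZi : Function.Injective Z := fun X Y e => Set.ext fun i => by rw [hZ, hZ, e]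
  have h1 := Cardinal.mk_le_of_injective hZi
  have h2 := Cardinal.mk_le_of_injective hj
  have h3 : #O ≤ #(O × O) :=
    Cardinal.mk_le_of_injective (f := fun a => (a, a)) fun _ _ e => (Prod.mk.inj e).1
  rw [Cardinal.mk_set, Cardinal.mk_set, Cardinal.mk_eq_aleph0 (ℕ × (Finset ℕ × Finset ℕ))] at h1
  rw [Cardinal.mk_set, Cardinal.mk_nat] at h2
  exact absurd ((h1.trans h2).trans h3) (not_le.2 (Cardinal.cantor _))

theorem realZ_inter (r : Set ℕ) (n : ℕ) : realZ (r ∩ Set.Iio n) = realZ r ∩ natZ n :=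
  ext_omega (realZ_subset _) (fun _ hx => realZ_subset r (ZFSet.mem_inter.1 hx).1) fun k => by
    rw [ZFSet.mem_inter, natZ_mem_realZ, natZ_mem_realZ, natZ_mem_natZ]; rfl

theorem Ctx.exists_code (c : Ctx f h ν) (hMA : MA1) (R : Rel2) : ∃ S, Cnt (J (ν + 1)) S ∧
    ∀ a b, R a b ↔ CodeZ (J (ν + 1)) f omegaZ S (eZ a) (eZ b) := by
  obtain ⟨Z, hZ1, hZ⟩ := solovay_h hMA c.inj {i | R i.1 i.2}
  let g : ℕ × (Set ℕ × Set ℕ) → V := fun x =>
    ZFSet.pair (natZ x.1) (ZFSet.pair (realZ x.2.1) (realZ x.2.2))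
  have hg : Function.Injective g := by
    rintro ⟨a, b, c⟩ ⟨a', b', c'⟩ e
    simp only [g, ZFSet.pair_inj, natZ_inj] at e
    rw [e.1, realZ_inj e.2.1, realZ_inj e.2.2]
  refine ⟨{x ∈ g '' Z | x ∈ J (ν + 1)}, ⟨(hZ1.image g).mono fun _ h => h.1, fun _ h => h.2⟩,
    fun a b => ?_⟩
  rw [c.code_iff]
  refine (hZ (a, b)).trans (forall_congr' fun m => exists_congr fun n =>
    and_congr_right fun _ => ?_)
  have e : cZ h a b n = g (n, (h a ∩ Set.Iio n, h b ∩ Set.Iio n)) := by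
    simp only [cZ, g, realZ_inter]
  rw [← hg.mem_set_image, ← e]
  exact ⟨fun H => ⟨H, c.cM a b n⟩, fun H => H.1⟩

/-- the assignment `v` carries the parameters and represents `u` -/
def Link (f : V) (v : ℕ → V) (u : ℕ → O) : Prop :=
  v 0 = f ∧ v 1 = omegaZ ∧ v 2 = omega1Z ∧ ∀ i, v (i + 3) = eZ (u i)

/-- the countable sets `X k` code the relations `R k` -/
def LinkS (f : V) (ν : Ordinal.{0}) (X : ℕ → Set V) (R : ℕ → Rel2) : Prop :=
  ∀ k a b, R k a b ↔ CodeZ (J (ν + 1)) f omegaZ (X k) (eZ a) (eZ b)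

/-- move the bound variable behind the parameters -/
def sw : ℕ → ℕ
  | 0 => 1
  | 1 => 2
  | 2 => 3
  | 3 => 0
  | n + 4 => n + 4

/-- renaming behind the parameters -/
def up3 (σ : ℕ → ℕ) : ℕ → ℕ
  | 0 => 0
  | 1 => 1
  | 2 => 2
  | n + 3 => σ n + 3

theorem Link.sw {v : ℕ → V} {u : ℕ → O} (H : Link f v u) (x : O) :
    Link f (fun n => cons (eZ x) v (sw n)) (cons x u) :=
  ⟨H.1, H.2.1, H.2.2.1, fun i => by
    cases i with
    | zero => rfl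
    | succ i => exact H.2.2.2 i⟩

theorem Ctx.real (c : Ctx f h ν) (hMA : MA1) {P : (ℕ → O) → (ℕ → Rel2) → Prop}
    (hP : SOD h {r | C2 (realZ r)} P) :
    ∃ Φ, Def (J (ν + 1)) (Tr (ν + 1)) Φ ∧ ∀ v X u R, (∀ i, v i ∈ J (ν + 1)) →
      (∀ k, Cnt (J (ν + 1)) (X k)) → Link f v u → LinkS f ν X R → (Φ v X ↔ P u R) := by
  have hM := J_transitive (ν + 1)
  induction hP with
  | lt i j =>
    refine ⟨_, Def.mem (i + 3) (j + 3), fun v X u R _ _ hl _ => ?_⟩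
    rw [hl.2.2.2, hl.2.2.2, eZ_mem_eZ]
  | eq i j =>
    refine ⟨_, Def.eq (i + 3) (j + 3), fun v X u R _ _ hl _ => ?_⟩
    rw [hl.2.2.2, hl.2.2.2, eZ_inj]
  | nat i =>
    refine ⟨_, Def.mem (i + 3) 1, fun v X u R _ _ hl _ => ?_⟩
    rw [hl.2.2.2, hl.2.1, eZ_mem_omegaZ]
  | hm i j =>
    refine ⟨fun v _ => ∃ y, y ∈ J (ν + 1) ∧ ZFSet.pair (v (i + 3)) y ∈ v 0 ∧ v (j + 3) ∈ y,
      Def.ex ((Def.pairMem hM _ _ _).and (Def.mem _ _)), fun v X u R _ _ hl _ => ?_⟩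
    simp only [hl.2.2.2, hl.1, c.val]
    constructor
    · rintro ⟨_, -, rfl, H⟩
      obtain ⟨n, hn⟩ := eZ_mem_omegaZ.1 (realZ_subset _ H)
      rw [hn, eZ_io, natZ_mem_realZ] at H
      exact ⟨n, hn, H⟩
    · rintro ⟨n, hn, H⟩
      exact ⟨_, c.hM _, rfl, by rwa [hn, eZ_io, natZ_mem_realZ]⟩
  | rel k i j =>
    refine ⟨_, Def.codeZ hM 0 1 k (i + 3) (j + 3), fun v X u R _ _ hl hs => ?_⟩
    rw [hl.2.2.2, hl.2.2.2, hl.1, hl.2.1, ← hs]
  | inK k =>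
    refine ⟨fun v X => ∃ y, y ∈ J (ν + 1) ∧ (∀ z, z ∈ y → z ∈ v 1) ∧
      ∀ n, n ∈ v 1 → (n ∈ y ↔ CodeZ (J (ν + 1)) (v 0) (v 1) (X k) n n), ?_,
      fun v X u R _ _ hl hs => ?_⟩
    · repeat (first
        | with_reducible exact Def.mem _ _
        | with_reducible exact Def.codeZ hM _ _ _ _ _
        | with_reducible apply Def.and
        | with_reducible apply Def.iff
        | with_reducible apply Def.ball hM
        | with_reducible apply Def.ex)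
    · simp only [hl.1, hl.2.1]
      constructor
      · rintro ⟨y, hy, h1, h2⟩
        have e : realZ {n | R k (io n) (io n)} = y := ext_omega (realZ_subset _) h1 fun n => by
          rw [natZ_mem_realZ, h2 _ (mem_omegaZ.2 ⟨n, rfl⟩), ← eZ_io, ← hs]; rfl
        show C2 _
        rw [e]; exact ⟨_, hy⟩
      · intro H
        refine ⟨_, c.KM _ H, realZ_subset _, fun n hn => ?_⟩
        obtain ⟨n, rfl⟩ := mem_omegaZ.1 hn
        rw [natZ_mem_realZ, ← eZ_io, ← hs]; rfl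
  | not _ ih =>
    obtain ⟨Φ, h1, h2⟩ := ih
    exact ⟨_, h1.not, fun v X u R hv hX hl hs => not_congr (h2 v X u R hv hX hl hs)⟩
  | and _ _ ih ih' =>
    obtain ⟨Φ, h1, h2⟩ := ih
    obtain ⟨Ψ, h3, h4⟩ := ih'
    exact ⟨_, h1.and h3, fun v X u R hv hX hl hs =>
      and_congr (h2 v X u R hv hX hl hs) (h4 v X u R hv hX hl hs)⟩
  | ex' _ ih =>
    obtain ⟨Φ, h1, h2⟩ := ih
    refine ⟨_, ((Def.mem 0 3).and (h1.ren sw fun n => n)).ex', fun v X u R hv hX hl hs => ?_⟩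
    constructor
    · rintro ⟨a, ha, h3, h4⟩
      have h5 : a ∈ omega1Z := hl.2.2.1 ▸ h3
      obtain ⟨x, rfl⟩ := mem_omega1Z.1 h5
      exact ⟨x, (h2 _ X _ R (fun _ => cons_all ha hv _) hX (hl.sw x) hs).1 h4⟩
    · rintro ⟨x, hx⟩
      refine ⟨eZ x, c.eM x, ?_,
        (h2 _ X _ R (fun _ => cons_all (c.eM x) hv _) hX (hl.sw x) hs).2 hx⟩
      show eZ x ∈ v 2
      rw [hl.2.2.1]; exact mem_omega1Z.2 ⟨x, rfl⟩
  | exR' _ ih =>
    obtain ⟨Φ, h1, h2⟩ := ih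
    refine ⟨_, h1.exS', fun v X u R hv hX hl hs => ?_⟩
    constructor
    · rintro ⟨S, hS, H⟩
      refine ⟨fun a b => CodeZ (J (ν + 1)) f omegaZ S (eZ a) (eZ b),
        (h2 v _ u _ hv (cons_all hS hX) hl fun k => ?_).1 H⟩
      cases k with
      | zero => exact fun _ _ => Iff.rfl
      | succ k => exact hs k
    · rintro ⟨R0, H⟩
      obtain ⟨S, hS, hc⟩ := c.exists_code hMA R0
      refine ⟨S, hS, (h2 v _ u _ hv (cons_all hS hX) hl fun k => ?_).2 H⟩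
      cases k with
      | zero => exact hc
      | succ k => exact hs k
  | ren σ τ _ ih =>
    obtain ⟨Φ, h1, h2⟩ := ih
    exact ⟨_, h1.ren (up3 σ) τ, fun v X u R hv hX hl hs => h2 _ _ _ _ (fun _ => hv _)
      (fun _ => hX _) ⟨hl.1, hl.2.1, hl.2.2.1, fun i => hl.2.2.2 _⟩ fun k => hs _⟩

theorem Ctx.closed (c : Ctx f h ν) (hMA : MA1) (P : (ℕ → O) → Prop)
    (hP : SOD h {r | C2 (realZ r)} fun u _ => P u) (u : ℕ → O) :
    {n | P (cons (io n) u)} ∈ {r | C2 (realZ r)} := by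
  obtain ⟨Φ, h1, h2⟩ := c.real hMA hP
  let v : ℕ → V := cons f (cons omegaZ (cons omega1Z fun i => eZ (u i)))
  have hv : ∀ i, v i ∈ J (ν + 1) := cons_all c.fM (cons_all c.wM (cons_all c.WM fun _ => c.eM _))
  have hl : Link f v u := ⟨rfl, rfl, rfl, fun _ => rfl⟩
  refine C2_of_def ((Def.mem 0 2).and (h1.ren sw fun n => n)) v hv _
    (fun a ha => J_transitive _ _ c.wM (realZ_subset _ ha)) fun a ha X hX => ?_
  have key : ∀ n : ℕ, Φ (fun k => cons (natZ n) v (sw k)) X ↔ P (cons (io n) u) := fun n => by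
    rw [← eZ_io]
    exact h2 _ X _ (fun k a b => CodeZ (J (ν + 1)) f omegaZ (X k) (eZ a) (eZ b))
      (fun _ => cons_all (c.eM _) hv _) hX (hl.sw _) fun _ _ _ => Iff.rfl
  constructor
  · rintro ⟨h3, h4⟩
    obtain ⟨n, rfl⟩ := mem_omegaZ.1 h3
    exact natZ_mem_realZ.2 ((key n).1 h4)
  · intro H
    obtain ⟨n, rfl⟩ := mem_omegaZ.1 (realZ_subset _ H)
    exact ⟨mem_omegaZ.2 ⟨n, rfl⟩, (key n).2 (natZ_mem_realZ.1 H)⟩

theorem all_reals (hMA : MA1) (hψ : PsiAC) (H : HasOmega1Seq) (x : V) (hx : x ⊆ omegaZ) :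
    C2 x := by
  obtain ⟨f, h, ν, c⟩ := exists_ctx H
  obtain ⟨r, rfl⟩ := exists_realZ hx
  exact all_in c.inj (c.closed hMA) hψ r

theorem IsOnto.exists_fun {g x : V} {P : V → Prop} (H : IsOnto g x P) :
    ∃ F : V → V, ∀ b, P b → ∃ a ∈ x, F a = b := by
  classical
  refine ⟨fun a => if h : ∃ b, ZFSet.pair a b ∈ g then h.choose else ∅, fun b hb => ?_⟩
  obtain ⟨a, ha, hab⟩ := H.2.2 b hb
  have h : ∃ b, ZFSet.pair a b ∈ g := ⟨b, hab⟩
  exact ⟨a, ha, by beta_reduce; rw [dif_pos h]; exact (H.2.1 a ha).unique h.choose_spec hab⟩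

theorem not_countable_omega1 : ¬ CountableInC2 ω₁ := by
  rintro (h | ⟨g, -, hg⟩)
  · exact (Ordinal.omega_pos 1).ne' h
  · obtain ⟨F, hF⟩ := hg.exists_fun
    have : ∀ a : O, ∃ n : ℕ, F (natZ n) = eZ a := fun a => by
      obtain ⟨x, hx, e⟩ := hF (eZ a) (mem_omega1Z.2 ⟨a, rfl⟩)
      obtain ⟨n, rfl⟩ := mem_omegaZ.1 hx
      exact ⟨n, e⟩
    choose n hn using this
    have hi : Function.Injective n := fun a b e => eZ_inj.1 (by rw [← hn, ← hn, e])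
    have := Cardinal.mk_le_of_injective hi
    rw [mk_O, Cardinal.mk_nat] at this
    exact absurd this (not_le.2 Cardinal.aleph0_lt_aleph_one)

theorem not_CH (hMA : MA1) (hψ : PsiAC) (H : HasOmega1Seq) : ¬ CHinC2 := by
  rintro ⟨κ, hκ, g, -, hg⟩
  have hle : κ ≤ ω₁ := not_lt.1 fun hlt => not_countable_omega1 (hκ _ hlt)
  obtain ⟨F, hF⟩ := hg.exists_fun
  have : ∀ r : Set ℕ, ∃ a : O, F (eZ a) = realZ r := fun r => by
    obtain ⟨x, hx, e⟩ := hF (realZ r) ⟨all_reals hMA hψ H _ (realZ_subset r), realZ_subset r⟩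
    obtain ⟨a, rfl⟩ := mem_omega1Z.1 (Ordinal.toZFSet_subset_toZFSet_iff.2 hle hx)
    exact ⟨a, e⟩
  choose j hj using this
  obtain ⟨f, h, ν, c⟩ := exists_ctx H
  exact not_inj_reals hMA c.inj j fun r s e => realZ_inj (by rw [← hj, ← hj, e])

end Pool.Agent.Lib.MP_f9eb18_lc
end

-- part Pool.Agent.Lib.MP_f9eb18_lc.Cut
section

/-! The cut of `Tr` used in the successor step of the hierarchy is harmless. -/

namespace Pool.Agent.Lib.MP_f9eb18_lc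

open Ordinal

theorem rank_eval_le (A : V) (t : RT) : ∃ c : ℕ, ∀ (v : ℕ → V) (ρ : Ordinal.{0}),
    (∀ i, (v i).rank ≤ ρ) → (t.eval A v).rank ≤ ρ + c := by
  induction t with
  | var i => exact ⟨0, fun v ρ h => by simpa [RT.eval] using h i⟩
  | diff s t hs _ =>
    obtain ⟨c, hc⟩ := hs
    exact ⟨c, fun v ρ h => (ZFSet.rank_mono fun _ hz => (ZFSet.mem_sdiff.1 hz).1).trans (hc v ρ h)⟩
  | upair s t hs ht =>
    obtain ⟨c, hc⟩ := hs
    obtain ⟨d, hd⟩ := ht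
    refine ⟨max c d + 1, fun v ρ h => ZFSet.rank_le_iff.2 fun z hz => ?_⟩
    have : z.rank ≤ ρ + (max c d : ℕ) := by
      rcases ZFSet.mem_pair.1 hz with rfl | rfl
      · exact (hc v ρ h).trans (add_le_add_right (Nat.cast_le.2 (le_max_left _ _)) _)
      · exact (hd v ρ h).trans (add_le_add_right (Nat.cast_le.2 (le_max_right _ _)) _)
    refine this.trans_lt ?_
    rw [add_lt_add_iff_left, Nat.cast_lt]; omega
  | bunion s g hs hg =>
    obtain ⟨c, hc⟩ := hs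
    obtain ⟨d, hd⟩ := hg
    refine ⟨c + d, fun v ρ h => ZFSet.rank_le_iff.2 fun z hz => ?_⟩
    obtain ⟨y, hy, hz⟩ := mem_bunion.1 hz
    have := hd (cons y v) (ρ + c) (cons_all (p := fun x : V => x.rank ≤ ρ + c)
      ((ZFSet.rank_lt_of_mem hy).le.trans (hc v ρ h)) fun i => (h i).trans le_self_add)
    rw [Nat.cast_add, ← add_assoc]
    exact (ZFSet.rank_lt_of_mem hz).trans_le this
  | inter s hs =>
    obtain ⟨c, hc⟩ := hs
    exact ⟨c, fun v ρ h => (ZFSet.rank_mono fun _ hz => (ZFSet.mem_inter.1 hz).1).trans (hc v ρ h)⟩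

theorem rank_rudCl {A X : V} {ρ : Ordinal.{0}} (hX : ∀ x ∈ X, x.rank < ρ + ω) :
    ∀ x ∈ rudCl A X, x.rank < ρ + ω := by
  have hl : ∀ x : V, x.rank < ρ + ω → ∃ c : ℕ, x.rank ≤ ρ + c := fun x hx => by
    obtain ⟨c, hc, h⟩ := (Ordinal.lt_add_iff_of_isSuccLimit Ordinal.isSuccLimit_omega0).1 hx
    obtain ⟨c, rfl⟩ := Ordinal.lt_omega0.1 hc
    exact ⟨c, h.le⟩
  have H : ∀ n : ℕ, ∀ x ∈ (rudStep A)^[n] X, x.rank < ρ + ω := by
    intro n
    induction n with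
    | zero => exact hX
    | succ n ih =>
      intro x hx
      rw [Function.iterate_succ_apply'] at hx
      unfold rudStep at hx
      obtain ⟨⟨t, l⟩, rfl⟩ := ZFSet.mem_range.1 hx
      have h1 : ∃ c : ℕ, ∀ i, (env (l.map Subtype.val) i).rank ≤ ρ + c := by
        induction l with
        | nil => exact ⟨0, fun i => by simp [env]⟩
        | cons a l ihl =>
          obtain ⟨c, hc⟩ := ihl (ZFSet.mem_range.2 ⟨(t, l), rfl⟩)
          obtain ⟨d, hd⟩ := hl _ (ih _ a.2)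
          refine ⟨max c d, fun i => ?_⟩
          cases i with
          | zero => exact hd.trans (add_le_add_right (Nat.cast_le.2 (le_max_right _ _)) _)
          | succ i => exact (hc i).trans (add_le_add_right (Nat.cast_le.2 (le_max_left _ _)) _)
      obtain ⟨c, hc⟩ := h1
      obtain ⟨d, hd⟩ := rank_eval_le A t
      refine (hd _ _ hc).trans_lt ?_
      rw [add_assoc, add_lt_add_iff_left, ← Nat.cast_add]
      exact Ordinal.natCast_lt_omega0 _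
  intro x hx
  obtain ⟨n, hn⟩ := mem_rudCl.1 hx
  exact H n x hn

theorem rank_lt_of_mem_J (ν : Ordinal.{0}) : ∀ x ∈ J ν, x.rank < ω * ν := by
  induction ν using Ordinal.limitRecOn with
  | zero => intro x hx; rw [J_zero] at hx; exact (ZFSet.notMem_empty x hx).elim
  | add_one b ih =>
    rw [J_succ, mul_add_one]
    refine rank_rudCl fun x hx => ?_
    have hlt : ω * b < ω * b + ω := lt_add_of_pos_right _ Ordinal.omega0_pos
    rcases ZFSet.mem_insert_iff.1 hx with rfl | hx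
    · exact (ZFSet.rank_le_iff.2 fun y hy => ih y hy).trans_lt hlt
    · exact (ih x hx).trans hlt
  | limit b hb ih =>
    intro x hx
    obtain ⟨a, ha, hx⟩ := (mem_J_limit hb).1 hx
    exact (ih a ha x hx).trans_le (mul_le_mul_right ha.le _)

/-- An element of `J'_{ων}` that lies in the class `Tr` already lies in `Tr ↾ ων`. Hence for
`x ∈ J'_{ων + ω}` the sets `x ∩ Tr` and `x ∩ Tr ↾ (ων + ω)` coincide. -/
theorem cut_harmless (ν μ : Ordinal.{0}) (x : V) (hx : x ∈ J ν) (p : V) (hp : p ∈ x)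
    (h : p ∈ Tr μ) : p ∈ Tr ν := by
  obtain ⟨ξ, -, hξ⟩ := mem_Tr.1 h
  refine mem_Tr.2 ⟨ξ, ?_, hξ⟩
  unfold truth at hξ
  obtain ⟨q, rfl⟩ := ZFSet.mem_range.1 hξ
  have h1 : (ω * ξ).toZFSet ∈ J ν :=
    J_transitive ν {(ω * ξ).toZFSet} (J_transitive ν _ (J_transitive ν x hx hp)
      (by unfold ZFSet.pair; simp)) (by simp)
  have h2 := rank_lt_of_mem_J ν _ h1
  rw [Ordinal.rank_toZFSet] at h2
  exact lt_of_mul_lt_mul_left' h2

end Pool.Agent.Lib.MP_f9eb18_lc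
end
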