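import Mathlib

/-!
# The inner model `C^2(omega)`, Martin's axiom and Woodin's principle `psi_AC`

The universe of sets is `ZFSet.{0}`; ordinals are the von Neumann ordinals `Ordinal.toZFSet`.
-/

namespace Pool.Agent.Lib.MP_f9eb18_lc

open Ordinal

/-- The universe of sets. -/
abbrev V := ZFSet.{0}

/-- The von Neumann numeral of `n`. -/
noncomputable def natZ (n : ℕ) : V := (n : Ordinal.{0}).toZFSet

/-- The set `ω`. -/
noncomputable def omegaZ : V := (ω : Ordinal.{0}).toZFSet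

/-- The set `ω₁`. -/
noncomputable def omega1Z : V := (ω₁ : Ordinal.{0}).toZFSet

/-- Formulas of `L^2_ω` for structures `(M, ∈, T)` (de Bruijn indices). `mem i j` is `x_i ∈ x_j`,
`eq i j` is `x_i = x_j`, `tr i` is `T(x_i)`, `memS i k` is `x_i ∈ X_k` with `X_k` a second-order
variable; `ex` binds a first-order and `exS` a second-order variable. -/
inductive Fm : Type
  | mem (i j : ℕ) : Fm
  | eq (i j : ℕ) : Fm
  | tr (i : ℕ) : Fm
  | memS (i k : ℕ) : Fm
  | neg (φ : Fm) : Fm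
  | and (φ ψ : Fm) : Fm
  | ex (φ : Fm) : Fm
  | exS (φ : Fm) : Fm

/-- Push a value in front of an assignment. -/
def cons {α : Type*} (a : α) (v : ℕ → α) : ℕ → α
  | 0 => a
  | n + 1 => v n

/-- Satisfaction in `(M, ∈, T)`: first-order variables range over the elements of `M`,
second-order variables range over the (really) countable subsets of `M`. -/
def Sat (M T : V) : Fm → (ℕ → V) → (ℕ → Set V) → Prop
  | .mem i j, v, _ => v i ∈ v j
  | .eq i j, v, _ => v i = v j
  | .tr i, v, _ => v i ∈ T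
  | .memS i k, v, X => v i ∈ X k
  | .neg φ, v, X => ¬ Sat M T φ v X
  | .and φ ψ, v, X => Sat M T φ v X ∧ Sat M T ψ v X
  | .ex φ, v, X => ∃ a ∈ M, Sat M T φ (cons a v) X
  | .exS φ, v, X => ∃ S : Set V, S.Countable ∧ (∀ x ∈ S, x ∈ M) ∧ Sat M T φ v (cons S X)

/-- All free first-order variables of `φ` have index `< φ.fo`. -/
def Fm.fo : Fm → ℕ
  | .mem i j => max i j + 1
  | .eq i j => max i j + 1
  | .tr i => i + 1
  | .memS i _ => i + 1
  | .neg φ => φ.fo
  | .and φ ψ => max φ.fo ψ.fo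
  | .ex φ => φ.fo - 1
  | .exS φ => φ.fo

/-- All free second-order variables of `φ` have index `< φ.so`. -/
def Fm.so : Fm → ℕ
  | .mem _ _ => 0
  | .eq _ _ => 0
  | .tr _ => 0
  | .memS _ k => k + 1
  | .neg φ => φ.so
  | .and φ ψ => max φ.so ψ.so
  | .ex φ => φ.so
  | .exS φ => φ.so - 1

/-- Goedel code of a formula, a hereditarily finite set. -/
noncomputable def Fm.code : Fm → V
  | .mem i j => ZFSet.pair (natZ 0) (ZFSet.pair (natZ i) (natZ j))
  | .eq i j => ZFSet.pair (natZ 1) (ZFSet.pair (natZ i) (natZ j))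
  | .tr i => ZFSet.pair (natZ 2) (natZ i)
  | .memS i k => ZFSet.pair (natZ 3) (ZFSet.pair (natZ i) (natZ k))
  | .neg φ => ZFSet.pair (natZ 4) φ.code
  | .and φ ψ => ZFSet.pair (natZ 5) (ZFSet.pair φ.code ψ.code)
  | .ex φ => ZFSet.pair (natZ 6) φ.code
  | .exS φ => ZFSet.pair (natZ 7) φ.code

/-- A finite tuple of sets, as nested ordered pairs. -/
noncomputable def listZ : List V → V
  | [] => ∅
  | a :: l => ZFSet.pair a (listZ l)

/-- The assignment given by a finite tuple. -/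
noncomputable def env (l : List V) : ℕ → V := fun i => l.getD i ∅

/-- The set `{(ων, φ(a)) : (J, ∈, T) ⊨ φ(a), a a tuple from J}`; `φ(a)` is the pair of the code of
`φ` and the tuple `a`, which must interpret all free variables of `φ`. -/
noncomputable def truth (ν : Ordinal.{0}) (J T : V) : V :=
  ZFSet.range fun q : {q : Fm × List J // q.1.fo ≤ q.2.length ∧ q.1.so = 0 ∧
      Sat J T q.1 (env (q.2.map Subtype.val)) (fun _ => ∅)} =>
    ZFSet.pair (ω * ν).toZFSet (ZFSet.pair q.1.1.code (listZ (q.1.2.map Subtype.val)))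

/-- Terms for the functions rudimentary in a predicate `A` (Jensen): projections, `x \ y`,
`{x, y}`, `⋃_{z ∈ y} g(z, x)`, `x ∩ A`, and compositions. -/
inductive RT : Type
  | var (i : ℕ) : RT
  | diff (s t : RT) : RT
  | upair (s t : RT) : RT
  | bunion (s g : RT) : RT
  | inter (s : RT) : RT

/-- Value of a rudimentary term. -/
noncomputable def RT.eval (A : V) : RT → (ℕ → V) → V
  | .var i, v => v i
  | .diff s t, v => s.eval A v \ t.eval A v
  | .upair s t, v => {s.eval A v, t.eval A v}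
  | .bunion s g, v => ZFSet.iUnion fun z : ↥(s.eval A v) => g.eval A (cons z.1 v)
  | .inter s, v => s.eval A v ∩ A

/-- The values of all `A`-rudimentary functions at tuples from `X`. -/
noncomputable def rudStep (A X : V) : V :=
  ZFSet.range fun q : RT × List X => q.1.eval A (env (q.2.map Subtype.val))

/-- `rud_A(X)`: the closure of `X` under the functions rudimentary in `A`. -/
noncomputable def rudCl (A X : V) : V := ZFSet.iUnion fun n : ℕ => (rudStep A)^[n] X

/-- The pair `(J'_{ων}, Tr ↾ ων)`. In the successor step `x ∩ Tr` is computed with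
`Tr ↾ (ων + ω)`; see `cut_harmless` for why this is the same as using all of `Tr`. -/
noncomputable def stage (ν : Ordinal.{0}) : V × V :=
  Ordinal.limitRecOn (motive := fun _ => V × V) ν (∅, ∅)
    (fun ν p => (rudCl (p.2 ∪ truth ν p.1 p.2) (insert p.1 p.1), p.2 ∪ truth ν p.1 p.2))
    (fun ν _ ih => (ZFSet.iUnion fun a : Set.Iio ν => (ih a.1 a.2).1,
      ZFSet.iUnion fun a : Set.Iio ν => (ih a.1 a.2).2))

/-- `J'_{ων}`. -/
noncomputable def J (ν : Ordinal.{0}) : V := (stage ν).1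

/-- `Tr ↾ ων`. -/
noncomputable def Tr (ν : Ordinal.{0}) : V := (stage ν).2

/-- `x ∈ C^2(ω)`. -/
def C2 (x : V) : Prop := ∃ ν : Ordinal.{0}, x ∈ J ν

/-- `f` is (the graph of) a function from `x` onto the class `{y | P y}`. -/
def IsOnto (f x : V) (P : V → Prop) : Prop :=
  (∀ p ∈ f, ∃ a ∈ x, ∃ b, P b ∧ p = ZFSet.pair a b) ∧
  (∀ a ∈ x, ∃! b, ZFSet.pair a b ∈ f) ∧ ∀ b, P b → ∃ a ∈ x, ZFSet.pair a b ∈ f

/-- The ordinal `β` is countable in `C^2(ω)`. -/
def CountableInC2 (β : Ordinal.{0}) : Prop :=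
  β = 0 ∨ ∃ g, C2 g ∧ IsOnto g omegaZ (fun b => b ∈ β.toZFSet)

/-- `CH` evaluated in `C^2(ω)`: for some ordinal `κ ≤ ω₁^{C^2(ω)}` the model contains a function
from `κ` onto its power set of `ω`. -/
def CHinC2 : Prop :=
  ∃ κ : Ordinal.{0}, (∀ β < κ, CountableInC2 β) ∧
    ∃ f, C2 f ∧ IsOnto f κ.toZFSet (fun b => C2 b ∧ b ⊆ omegaZ)

/-- `C^2(ω)` contains an injective function from (the real) `ω₁` to the power set of `ω`. -/
def HasOmega1Seq : Prop :=
  ∃ f, C2 f ∧ ZFSet.IsFunc omega1Z (ZFSet.powerset omegaZ) f ∧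
    ∀ a a' b, ZFSet.pair a b ∈ f → ZFSet.pair a' b ∈ f → a = a'

/-- The well-order `ω₁` as a type. -/
abbrev O : Type := (ω₁ : Ordinal.{0}).ToType

/-- Martin's axiom for `ℵ₁` dense sets. -/
def MA1 : Prop :=
  ∀ (P : Type) [PartialOrder P] [Nonempty P],
    (∀ A : Set P, A.Pairwise (fun p q => ¬ ∃ r, r ≤ p ∧ r ≤ q) → A.Countable) →
    ∀ D : O → Set P, (∀ i p, ∃ q ∈ D i, q ≤ p) →
      ∃ G : Set P, (∀ p ∈ G, ∀ q ∈ G, ∃ r ∈ G, r ≤ p ∧ r ≤ q) ∧
        (∀ p ∈ G, ∀ q, p ≤ q → q ∈ G) ∧ ∀ i, (G ∩ D i).Nonempty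

/-- Woodin's principle `ψ_AC`: for all stationary, co-stationary `S, T ⊆ ω₁` there are an ordinal
`γ`, a bijection `π : ω₁ → γ` and a club `C ⊆ ω₁` with
`{η | ordertype (π[η]) ∈ T} ∩ C = S ∩ C`. -/
def PsiAC : Prop :=
  ∀ S T : Set O, IsStationary S → IsStationary Sᶜ → IsStationary T → IsStationary Tᶜ →
    ∃ (γ : Ordinal.{0}) (π : O ≃ γ.ToType) (C : Set O), IsClub C ∧
      {η | ∃ β ∈ T, Nonempty (↥(π '' Set.Iio η) ≃o ↥(Set.Iio β))} ∩ C = S ∩ C

end Pool.Agent.Lib.MP_f9eb18_lc
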